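import Mathlib
import Pool.Agent.H71.W.JGeo

/-! # C6, JRow: the junction box in tiles

`n` tiles per cell. `ci b n x` : number of steps left of the column `x`, `pli b n x` : plate of the column
`x < 0`. `InQ_tile`, `chn_tile`, `InR_tile` : the box, the plates and the room are given by heights. -/

set_option autoImplicit false
open Finset

namespace Pool.Agent.H28.W

open Pool.Agent.H6.W Pool.Agent.H21.W Pool.Agent.H61.W Pool.Agent.H71.W
open Pool.Agent.H33.Q1 Pool.Agent.H50.W

variable {b : JBox} {δ σ : ℝ} {n x y h : ℤ}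

lemma div_lt' {a : ℤ} (hn : 0 < n) : x / n < a ↔ x < a * n := Int.ediv_lt_iff_lt_mul hn

lemma le_div' {a : ℤ} (hn : 0 < n) : a ≤ x / n ↔ a * n ≤ x := Int.le_ediv_iff_mul_le hn

lemma dst_div_lt {a : ℤ} (hn : 0 < n) : dst (y / n) < a ↔ -(a * n) ≤ y ∧ y < a * n := by
  rw [dst_lt, div_lt' hn, le_div' hn, neg_mul]

/-- number of steps left of the column `x` -/
noncomputable def ci (b : JBox) (n x : ℤ) : ℕ := ((range b.K).filter fun i => b.st i * n ≤ x).card

lemma ci_le : ci b n x ≤ b.K := by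
  unfold ci
  exact (card_filter_le _ _).trans (by rw [card_range])

lemma lt_ci_iff (hb : b.Ok δ σ) (hn : 0 < n) {i : ℕ} (hi : i < b.K) :
    i < ci b n x ↔ b.st i * n ≤ x := by
  have key : ∀ j, j < b.K → b.st j * n ≤ x → ∀ i ≤ j, b.st i * n ≤ x := by
    intro j hj h1 i hij
    have h2 : b.st i ≤ b.st j := (st_le_iff hb (by omega) hj).2 hij
    exact (mul_le_mul_of_nonneg_right h2 hn.le).trans h1
  constructor
  · intro h1
    by_contra h2
    have hsub : (range b.K).filter (fun i => b.st i * n ≤ x) ⊆ range i := by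
      intro j hj
      rw [mem_filter, mem_range] at hj
      rw [mem_range]
      by_contra h3
      exact h2 (key j hj.1 hj.2 i (by omega))
    have := card_le_card hsub
    rw [card_range] at this
    unfold ci at h1
    omega
  · intro h1
    have hsub : range (i + 1) ⊆ (range b.K).filter (fun i => b.st i * n ≤ x) := by
      intro j hj
      rw [mem_range] at hj
      rw [mem_filter, mem_range]
      exact ⟨by omega, key i hi h1 j (by omega)⟩
    have := card_le_card hsub
    rw [card_range] at this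
    unfold ci
    omega

lemma ci_mono {x x' : ℤ} (hx : x ≤ x') : ci b n x ≤ ci b n x' := by
  unfold ci
  apply card_le_card
  intro i hi
  rw [mem_filter] at hi ⊢
  exact ⟨hi.1, hi.2.trans hx⟩

/-- **The box in tiles.** -/
theorem InQ_tile (hb : b.Ok δ σ) (hn : 0 < n) : InQ b n x y ↔
    (-((b.X : ℤ) * n) ≤ x ∧ x < (b.X : ℤ) * n) ∧
      -(((b.H : ℤ) + ci b n x) * n) ≤ y ∧ y < ((b.H : ℤ) + ci b n x) * n := by
  unfold InQ
  rw [mem_Q hb, ← dst_div_lt (a := (b.H : ℤ) + ci b n x) hn, div_lt' (a := (b.X : ℤ)) hn]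
  have hc : ci b n x ≤ b.K := ci_le
  unfold Ht
  constructor
  · rintro ⟨h1, h2, h3⟩
    by_cases h4 : dst (y / n) < b.H
    · rw [if_pos h4, le_div' hn, neg_mul] at h3
      exact ⟨⟨h3, h2⟩, by omega⟩
    · rw [if_neg h4, le_div' hn] at h3
      have hi : (dst (y / n) - b.H).toNat < b.K := by omega
      have h5 := (lt_ci_iff hb hn hi).2 h3
      have h6 := (hb.st_lo _ hi).1
      refine ⟨⟨?_, h2⟩, by omega⟩
      have : -(b.X : ℤ) * n ≤ b.st (dst (y / n) - b.H).toNat * n :=
        mul_le_mul_of_nonneg_right h6.le hn.le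
      linarith
  · rintro ⟨⟨h1, h2⟩, h3⟩
    refine ⟨by omega, h2, ?_⟩
    by_cases h4 : dst (y / n) < b.H
    · rw [if_pos h4, le_div' hn, neg_mul]
      exact h1
    · rw [if_neg h4, le_div' hn]
      have hi : (dst (y / n) - b.H).toNat < b.K := by omega
      exact (lt_ci_iff hb hn hi).1 (by omega)

/-- plate of the column `x < 0` -/
def pli (b : JBox) (n x : ℤ) : ℕ := ((-x - 1) / (b.M * n)).toNat

lemma pli_iff (hb : b.Ok δ σ) (hn : 0 < n) (hx : x < 0) {i : ℕ} : pli b n x = i ↔
    -(((i : ℤ) + 1) * b.M * n) ≤ x ∧ x < -((i : ℤ) * b.M * n) := by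
  have hM : (0 : ℤ) < b.M := by exact_mod_cast hb.M0
  have hMn : 0 < (b.M : ℤ) * n := mul_pos hM hn
  unfold pli
  have h0 : 0 ≤ (-x - 1) / ((b.M : ℤ) * n) := Int.ediv_nonneg (by omega) hMn.le
  constructor
  · intro h1
    have h2 : (-x - 1) / ((b.M : ℤ) * n) = i := by omega
    have h3 := Int.ediv_mul_le (-x - 1) hMn.ne'
    have h4 := Int.lt_ediv_add_one_mul_self (-x - 1) hMn
    rw [h2] at h3 h4
    constructor <;> nlinarith
  · rintro ⟨h1, h2⟩
    have h3 : (-x - 1) / ((b.M : ℤ) * n) = i := by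
      apply le_antisymm
      · have := (Int.ediv_lt_iff_lt_mul hMn (a := -x - 1) (b := (i : ℤ) + 1)).2 (by linarith)
        omega
      · exact (Int.le_ediv_iff_mul_le hMn).2 (by linarith)
    omega

lemma pli_spec (hb : b.Ok δ σ) (hn : 0 < n) (hx : x < 0) :
    -(((pli b n x : ℤ) + 1) * b.M * n) ≤ x ∧ x < -((pli b n x : ℤ) * b.M * n) :=
  (pli_iff hb hn hx).1 rfl

lemma pli_lt (hb : b.Ok δ σ) (hn : 0 < n) (hx : x < 0) (h : -((b.X : ℤ) * n) ≤ x) :
    pli b n x < nP b := by
  have hM : (0 : ℤ) < b.M := by exact_mod_cast hb.M0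
  have h1 := (pli_spec hb hn hx).2
  rw [X_eq hb] at h
  by_contra h2
  have h3 : (nP b : ℤ) ≤ pli b n x := by exact_mod_cast (not_lt.1 h2)
  have h4 : (nP b : ℤ) * b.M * n ≤ (pli b n x : ℤ) * b.M * n :=
    mul_le_mul_of_nonneg_right (mul_le_mul_of_nonneg_right h3 hM.le) hn.le
  linarith

/-- **The plates in tiles.** -/
theorem chn_tile (hb : b.Ok δ σ) (hn : 0 < n) {i : ℕ} : chn 0 b.M b.τ (x / n, y / n) = some i ↔
    x < 0 ∧ pli b n x = i ∧ -(((b.τ : ℤ) + i) * n) ≤ y ∧ y < ((b.τ : ℤ) + i) * n := by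
  have hM : (0 : ℤ) < b.M := by exact_mod_cast hb.M0
  rw [chn_some hb.M0, pix_le]
  simp only [zero_sub]
  rw [← neg_mul, le_div' hn, div_lt' hn, le_div' hn, div_lt' hn]
  constructor
  · rintro ⟨⟨h1, h2⟩, h3, h4⟩
    have hx : x < 0 := by
      have : 0 ≤ (i : ℤ) * b.M * n := by positivity
      nlinarith
    refine ⟨hx, (pli_iff hb hn hx).2 ⟨by linarith, by linarith⟩, by linarith, h4⟩
  · rintro ⟨hx, h1, h3, h4⟩
    have := (pli_iff hb hn hx).1 h1
    exact ⟨⟨by linarith [this.1], by linarith [this.2]⟩, by linarith, h4⟩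

/-- **The room in tiles.** -/
theorem InR_tile (hb : b.Ok δ σ) (hn : 0 < n) : InR b n x y ↔ InQ b n x y ∧
    (x < 0 → y < -(((b.τ : ℤ) + pli b n x) * n) ∨ ((b.τ : ℤ) + pli b n x) * n ≤ y) := by
  unfold InR
  refine and_congr Iff.rfl ?_
  rw [Option.eq_none_iff_forall_ne_some]
  constructor
  · intro h1 hx
    have h2 := h1 (pli b n x)
    rw [ne_eq, chn_tile hb hn] at h2
    by_contra h3
    apply h2
    rw [not_or, not_lt, not_le] at h3
    exact ⟨hx, rfl, h3.1, h3.2⟩
  · intro h1 i h2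
    rw [chn_tile hb hn] at h2
    obtain ⟨hx, rfl, h3, h4⟩ := h2
    rcases h1 hx with h5 | h5 <;> omega

/-! ### Heights on both sides -/

/-- the row of the height `h` above a floor (`s = true`), below a ceiling (`s = false`) -/
def ys (s : Bool) (h : ℤ) : ℤ := if s then h else -1 - h

variable {s : Bool}

lemma ys_ys : ys s (ys s h) = h := by unfold ys; cases s <;> simp

lemma InQ_ys (hb : b.Ok δ σ) (hn : 0 < n) : InQ b n x (ys s h) ↔ InQ b n x h := by
  rw [InQ_tile hb hn, InQ_tile hb hn]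
  unfold ys
  cases s
  · simp only [Bool.false_eq_true, if_false]
    refine and_congr Iff.rfl ?_
    constructor <;> rintro ⟨h1, h2⟩ <;> constructor <;> omega
  · simp

lemma InR_ys (hb : b.Ok δ σ) (hn : 0 < n) : InR b n x (ys s h) ↔ InR b n x h := by
  rw [InR_tile hb hn, InR_tile hb hn, InQ_ys hb hn]
  unfold ys
  cases s
  · simp only [Bool.false_eq_true, if_false]
    refine and_congr Iff.rfl ?_
    constructor <;> intro h1 hx <;> rcases h1 hx with h2 | h2 <;> omega
  · simp

/-- the layer: tiles which touch the box -/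
lemma Ly_of (h1 : ¬ InQ b n x y) {x' y' : ℤ} (h2 : InQ b n x' y') (hx : |x' - x| ≤ 3)
    (hy : |y' - y| ≤ 3) : Ly b n x y := by
  refine ⟨h1, x' - x, y' - y, hx, hy, ?_⟩
  rw [show x + (x' - x) = x' by ring, show y + (y' - y) = y' by ring]
  exact h2

/-- the diagonal tiles -/
lemma dgt_eq (c : Bool × ℕ) : dgt b n c =
    (b.st c.2 * n - 1, ys (!c.1) (-(((b.H : ℤ) + c.2 + 1) * n) - 1)) := by
  obtain ⟨u, i⟩ := c
  unfold dgt cpt ys
  cases u
  · simp
  · simp only [if_true, Bool.not_true, Bool.false_eq_true, if_false, Prod.mk.injEq, true_and]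
    ring

/-- colours of the outer layer on the side `s` (`s = true` : floor) -/
def cu (cl : Cl) (s : Bool) (i : ℕ) : Bool := if s then cl.l i else cl.u i

lemma lcol_B {cl : Cl} (hx : x < (b.X : ℤ) * n) (hh : h < 0) :
    lcol b n cl x (ys s h) = cu cl s (min b.K ((-1 - h) / n - b.H).toNat) := by
  unfold lcol ys cu
  rw [if_neg (by omega)]
  cases s
  · simp only [Bool.false_eq_true, if_false]
    rw [if_pos (by omega)]
  · simp only [if_true]
    rw [if_neg (by omega), show -h - 1 = -1 - h by ring]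

lemma lcol_A {cl : Cl} (hx : x < (b.X : ℤ) * n) (hh : 0 ≤ h) :
    lcol b n cl x (ys s h) = cu cl (!s) (min b.K (h / n - b.H).toNat) := by
  unfold lcol ys cu
  rw [if_neg (by omega)]
  cases s
  · simp only [Bool.false_eq_true, if_false, Bool.not_false, if_true]
    rw [if_neg (by omega), show -(-1 - h) - 1 = h by ring]
  · simp only [if_true, Bool.not_true, Bool.false_eq_true, if_false]
    rw [if_pos hh]

end Pool.Agent.H28.W
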