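import Mathlib
import Pool.Agent.H28.W.JBankG
import Pool.Agent.H92.W.Bank

/-! # C6, JRow: the banks of the slit (`botA`) and the ceiling / floor (`botB`) as heights

Side `s` : height `h` = row `ys s h`. `botA` : upper bank of the slit for `s = true`, lower bank for `s = false`;
`botB` : floor for `s = true`, ceiling for `s = false`. -/

set_option autoImplicit false
open Finset

namespace Pool.Agent.H28.W

open Pool.Agent.H6.W Pool.Agent.H21.W Pool.Agent.H61.W Pool.Agent.H71.W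
open Pool.Agent.H33.Q1 Pool.Agent.H50.W
open Pool.Agent.H92.W (τ Tch)

variable {b : JBox} {δ σ : ℝ} {n R x y h x0 : ℤ} {s : Bool}

/-- heights of the banks of the slit -/
noncomputable def botA (b : JBox) (n x : ℤ) : ℤ :=
  if x < -((b.X : ℤ) * n) then ((b.τ : ℤ) + nP b) * n
  else if x < 0 then ((b.τ : ℤ) + pli b n x) * n else ((b.τ : ℤ) - 1) * n

/-- heights of the ceiling and the floor -/
noncomputable def botB (b : JBox) (n x : ℤ) : ℤ :=
  if -((b.X : ℤ) * n) ≤ x ∧ x < (b.X : ℤ) * n then -(((b.H : ℤ) + ci b n x) * n) else 0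

/-- pieces of the banks of the slit: the plates, the wall on the left -/
noncomputable def pcA (b : JBox) (n x : ℤ) : ℤ :=
  if x < -((b.X : ℤ) * n) then -1 else if x < 0 then pli b n x else -2

/-- pieces of the ceiling / floor: between the marks -/
noncomputable def pcB (b : JBox) (n : ℤ) (M : Finset (Bool × ℕ)) (s : Bool) (x : ℤ) : ℤ :=
  (M.filter fun c => c.1 = !s ∧ c.2 < ci b n x).card

/-- changes of the banks of the slit -/
noncomputable def JA (b : JBox) (n : ℤ) : Finset ℤ :=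
  (range (nP b + 1)).image fun k : ℕ => -((k : ℤ) * b.M * n)

/-- changes of the ceiling / floor -/
noncomputable def JB (b : JBox) (n : ℤ) : Finset ℤ :=
  {-((b.X : ℤ) * n), (b.X : ℤ) * n} ∪ (range b.K).image fun i => b.st i * n

lemma card_JA : (JA b n).card ≤ nP b + 1 := by
  unfold JA
  exact card_image_le.trans (by rw [card_range])

lemma card_JB : (JB b n).card ≤ b.K + 2 := by
  unfold JB
  refine (card_union_le _ _).trans ?_
  have h1 : ({-((b.X : ℤ) * n), (b.X : ℤ) * n} : Finset ℤ).card ≤ 2 := card_le_two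
  have h2 : ((range b.K).image fun i => b.st i * n).card ≤ b.K :=
    card_image_le.trans (by rw [card_range])
  omega

lemma Xn_eq (hb : b.Ok δ σ) : (b.X : ℤ) * n = (nP b : ℤ) * b.M * n := by rw [X_eq hb]

lemma Mn_ge (hb : b.Ok δ σ) (hn : 0 < n) : n ≤ (b.M : ℤ) * n := by
  have hM : (1 : ℤ) ≤ b.M := by exact_mod_cast hb.M0
  nlinarith

lemma nP1 (hb : b.Ok δ σ) : (1 : ℤ) ≤ nP b := by exact_mod_cast nP_pos hb

/-- the plate left of a gap -/
lemma pli_gap (hb : b.Ok δ σ) (hn : 0 < n) {k : ℕ} : pli b n (-((k : ℤ) * b.M * n) - 1) = k := by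
  have hM : (0 : ℤ) < b.M := by exact_mod_cast hb.M0
  have h1 := Mn_ge hb hn
  have h2 : 0 ≤ (k : ℤ) * b.M * n := by positivity
  rw [pli_iff hb hn (by linarith)]
  constructor <;> nlinarith

/-- the plate right of a gap -/
lemma pli_gap' (hb : b.Ok δ σ) (hn : 0 < n) {k : ℕ} :
    pli b n (-(((k : ℤ) + 1) * b.M * n)) = k := by
  have hM : (0 : ℤ) < b.M := by exact_mod_cast hb.M0
  have h1 := Mn_ge hb hn
  have h2 : 0 ≤ (k : ℤ) * b.M * n := by positivity
  rw [pli_iff hb hn (by nlinarith)]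
  constructor <;> nlinarith

/-- values of `botA` at the gaps -/
lemma botA_gap (hb : b.Ok δ σ) (hn : 0 < n) {k : ℕ} (hk : k ≤ nP b) :
    botA b n (-((k : ℤ) * b.M * n) - 1) = ((b.τ : ℤ) + k) * n ∧
      botA b n (-((k : ℤ) * b.M * n)) = ((b.τ : ℤ) + k - 1) * n := by
  have hM : (0 : ℤ) < b.M := by exact_mod_cast hb.M0
  have h1 := Mn_ge hb hn
  have h2 : 0 ≤ (k : ℤ) * b.M * n := by positivity
  have hX := Xn_eq (n := n) hb
  have hk' : (k : ℤ) * b.M * n ≤ (nP b : ℤ) * b.M * n := by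
    have : (k : ℤ) ≤ nP b := by exact_mod_cast hk
    exact mul_le_mul_of_nonneg_right (mul_le_mul_of_nonneg_right this hM.le) hn.le
  constructor
  · unfold botA
    rcases hk.lt_or_eq with h3 | h3
    · have h4 : ((k : ℤ) + 1) * b.M * n ≤ (nP b : ℤ) * b.M * n := by
        have : (k : ℤ) + 1 ≤ nP b := by exact_mod_cast h3
        exact mul_le_mul_of_nonneg_right (mul_le_mul_of_nonneg_right this hM.le) hn.le
      rw [if_neg (by nlinarith), if_pos (by linarith), pli_gap hb hn]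
    · rw [if_pos (by rw [hX, h3]; linarith), h3]
  · unfold botA
    rw [if_neg (by linarith)]
    rcases Nat.eq_zero_or_pos k with rfl | h3
    · rw [if_neg (by simp)]
      simp
    · obtain ⟨j, rfl⟩ : ∃ j, k = j + 1 := ⟨k - 1, by omega⟩
      rw [if_pos (by push_cast; nlinarith)]
      have := pli_gap' (k := j) hb hn
      push_cast
      rw [this]
      ring

lemma mem_JA : x ∈ JA b n ↔ ∃ k : ℕ, k ≤ nP b ∧ x = -((k : ℤ) * b.M * n) := by
  unfold JA
  simp only [mem_image, mem_range]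
  constructor
  · rintro ⟨k, h1, h2⟩; exact ⟨k, by omega, h2.symm⟩
  · rintro ⟨k, h1, h2⟩; exact ⟨k, by omega, h2.symm⟩

/-- no change off `JA` -/
lemma cstA (hb : b.Ok δ σ) (hn : 0 < n) (hx : x ∉ JA b n) :
    botA b n (x - 1) = botA b n x ∧ pcA b n (x - 1) = pcA b n x := by
  have hM : (0 : ℤ) < b.M := by exact_mod_cast hb.M0
  have h0 : x ≠ 0 := by
    rintro rfl
    exact hx (mem_JA.2 ⟨0, by omega, by simp⟩)
  have hX : x ≠ -((b.X : ℤ) * n) := by
    intro h
    exact hx (mem_JA.2 ⟨nP b, le_rfl, by rw [h, Xn_eq hb]⟩)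
  have hXn : 0 ≤ (b.X : ℤ) * n := by positivity
  unfold botA pcA
  by_cases h1 : x < -((b.X : ℤ) * n)
  · rw [if_pos h1, if_pos (by omega), if_pos h1, if_pos (by omega)]
    exact ⟨rfl, rfl⟩
  · rw [if_neg h1, if_neg (show ¬ (x - 1 < -((b.X : ℤ) * n)) by omega), if_neg h1,
      if_neg (show ¬ (x - 1 < -((b.X : ℤ) * n)) by omega)]
    by_cases h2 : x < 0
    · rw [if_pos h2, if_pos (by omega), if_pos h2, if_pos (by omega)]
      have h3 : pli b n (x - 1) = pli b n x := by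
        rw [pli_iff hb hn (by omega)]
        have h4 := pli_spec hb hn h2
        refine ⟨?_, by omega⟩
        rcases h4.1.lt_or_eq with h5 | h5
        · omega
        · exfalso
          apply hx
          rw [mem_JA]
          refine ⟨pli b n x + 1, ?_, by push_cast; exact h5.symm⟩
          have := pli_lt hb hn h2 (not_lt.1 h1)
          omega
      rw [h3]
      exact ⟨rfl, rfl⟩
    · rw [if_neg h2, if_neg (by omega), if_neg h2, if_neg (by omega)]
      exact ⟨rfl, rfl⟩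

lemma sepA (hb : b.Ok δ σ) (hn : 0 < n) (hR : R ≤ n) :
    ∀ i ∈ JA b n, ∀ j ∈ JA b n, i < j → i + R ≤ j := by
  intro i hi j hj hij
  obtain ⟨k, -, rfl⟩ := mem_JA.1 hi
  obtain ⟨l, -, rfl⟩ := mem_JA.1 hj
  have hM : (0 : ℤ) < b.M := by exact_mod_cast hb.M0
  have h1 := Mn_ge hb hn
  have hkl : (l : ℤ) < k := by
    by_contra h2
    have : (k : ℤ) * b.M * n ≤ (l : ℤ) * b.M * n :=
      mul_le_mul_of_nonneg_right (mul_le_mul_of_nonneg_right (not_lt.1 h2) hM.le) hn.le
    linarith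
  have h3 : ((l : ℤ) + 1) * b.M * n ≤ (k : ℤ) * b.M * n :=
    mul_le_mul_of_nonneg_right (mul_le_mul_of_nonneg_right (by omega) hM.le) hn.le
  nlinarith

lemma jumpA (hb : b.Ok δ σ) (hn : 0 < n) (hR : R ≤ n) : ∀ i ∈ JA b n,
    botA b n (i - 1) = botA b n i ∨ botA b n (i - 1) + R ≤ botA b n i ∨
      botA b n i + R ≤ botA b n (i - 1) := by
  intro i hi
  obtain ⟨k, hk, rfl⟩ := mem_JA.1 hi
  obtain ⟨h1, h2⟩ := botA_gap hb hn hk
  right; right
  rw [h1, h2]
  nlinarith

/-! ### Ceiling and floor -/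

lemma mem_JB : x ∈ JB b n ↔ x = -((b.X : ℤ) * n) ∨ x = (b.X : ℤ) * n ∨
    ∃ i, i < b.K ∧ x = b.st i * n := by
  unfold JB
  rw [mem_union, mem_insert, mem_singleton, mem_image, or_assoc]
  refine or_congr Iff.rfl (or_congr Iff.rfl ?_)
  constructor
  · rintro ⟨i, h1, h2⟩; exact ⟨i, mem_range.1 h1, h2.symm⟩
  · rintro ⟨i, h1, h2⟩; exact ⟨i, mem_range.2 h1, h2.symm⟩

lemma ci_pred (hx : ∀ i, i < b.K → x ≠ b.st i * n) : ci b n (x - 1) = ci b n x := by
  unfold ci
  congr 1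
  apply filter_congr
  intro i hi
  have := hx i (mem_range.1 hi)
  omega

lemma cstB (hx : x ∉ JB b n) (M : Finset (Bool × ℕ)) (s : Bool) :
    botB b n (x - 1) = botB b n x ∧ pcB b n M s (x - 1) = pcB b n M s x := by
  rw [mem_JB, not_or, not_or, not_exists] at hx
  obtain ⟨h1, h2, h3⟩ := hx
  have h4 : ci b n (x - 1) = ci b n x := ci_pred fun i hi h => h3 i ⟨hi, h⟩
  unfold botB pcB
  rw [h4]
  refine ⟨?_, rfl⟩
  have : (-((b.X : ℤ) * n) ≤ x - 1 ∧ x - 1 < (b.X : ℤ) * n) ↔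
      (-((b.X : ℤ) * n) ≤ x ∧ x < (b.X : ℤ) * n) := by omega
  simp only [this]

/-- the steps -/
lemma ci_st (hb : b.Ok δ σ) (hn : 0 < n) {i : ℕ} (hi : i < b.K) :
    ci b n (b.st i * n) = i + 1 ∧ ci b n (b.st i * n - 1) = i := by
  have h1 := (lt_ci_iff (x := b.st i * n) hb hn hi).2 le_rfl
  have h2 : ¬ i < ci b n (b.st i * n - 1) := by rw [lt_ci_iff hb hn hi]; omega
  have h3 : ci b n (b.st i * n) ≤ i + 1 := by
    by_contra h4
    have h5 : i + 1 < b.K := by have := ci_le (b := b) (n := n) (x := b.st i * n); omega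
    have h6 := (lt_ci_iff (x := b.st i * n) hb hn h5).1 (by omega)
    have h7 := hb.st_mono i h5
    nlinarith
  have h4 : i ≤ ci b n (b.st i * n - 1) := by
    rcases Nat.eq_zero_or_pos i with rfl | h5
    · omega
    · obtain ⟨j, rfl⟩ : ∃ j, i = j + 1 := ⟨i - 1, by omega⟩
      have h6 : b.st j * n ≤ b.st (j + 1) * n - 1 := by
        have := hb.st_mono j hi
        nlinarith
      have := (lt_ci_iff (x := b.st (j + 1) * n - 1) hb hn (i := j) (by omega)).2 h6
      omega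
  omega

lemma st_bd (hb : b.Ok δ σ) (hn : 0 < n) {i : ℕ} (hi : i < b.K) :
    -((b.X : ℤ) * n) + n ≤ b.st i * n ∧ b.st i * n + n ≤ (b.X : ℤ) * n := by
  have h1 := hb.st_lo i hi
  constructor <;> nlinarith

lemma ci_left (hb : b.Ok δ σ) (hn : 0 < n) (hx : x < -((b.X : ℤ) * n) + n) : ci b n x = 0 := by
  by_contra h1
  have h2 : 0 < b.K := by have := ci_le (b := b) (n := n) (x := x); omega
  have h3 := (lt_ci_iff (x := x) hb hn h2).1 (by omega)
  have h4 := (st_bd hb hn h2).1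
  linarith

lemma ci_right (hb : b.Ok δ σ) (hn : 0 < n) (hx : (b.X : ℤ) * n ≤ x + n) : ci b n x = b.K := by
  rcases Nat.eq_zero_or_pos b.K with h1 | h1
  · have := ci_le (b := b) (n := n) (x := x); omega
  · have h2 := (st_bd hb hn (i := b.K - 1) (by omega)).2
    have h3 := (lt_ci_iff (x := x) hb hn (i := b.K - 1) (by omega)).2 (by linarith)
    have := ci_le (b := b) (n := n) (x := x)
    omega

lemma X1 (hb : b.Ok δ σ) : (1 : ℤ) ≤ b.X := by exact_mod_cast X_pos hb

lemma H1 (hb : b.Ok δ σ) : (1 : ℤ) ≤ b.H := by exact_mod_cast hb.H0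

/-- values of `botB` at the changes -/
lemma botB_st (hb : b.Ok δ σ) (hn : 0 < n) {i : ℕ} (hi : i < b.K) :
    botB b n (b.st i * n - 1) = -(((b.H : ℤ) + i) * n) ∧
      botB b n (b.st i * n) = -(((b.H : ℤ) + i + 1) * n) := by
  have h1 := st_bd hb hn hi
  obtain ⟨h2, h3⟩ := ci_st hb hn hi
  unfold botB
  rw [if_pos (by omega), if_pos (by omega), h2, h3]
  refine ⟨rfl, by push_cast; ring⟩

lemma botB_left (hb : b.Ok δ σ) (hn : 0 < n) :
    botB b n (-((b.X : ℤ) * n) - 1) = 0 ∧ botB b n (-((b.X : ℤ) * n)) = -((b.H : ℤ) * n) := by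
  have h1 := X1 hb
  have h2 : 0 < (b.X : ℤ) * n := by positivity
  unfold botB
  rw [if_neg (by omega), if_pos (by omega), ci_left hb hn (by omega)]
  refine ⟨rfl, by push_cast; ring⟩

lemma botB_right (hb : b.Ok δ σ) (hn : 0 < n) :
    botB b n ((b.X : ℤ) * n - 1) = -(((b.H : ℤ) + b.K) * n) ∧ botB b n ((b.X : ℤ) * n) = 0 := by
  have h1 := X1 hb
  have h2 : 0 < (b.X : ℤ) * n := by positivity
  unfold botB
  rw [if_neg (show ¬ (-((b.X : ℤ) * n) ≤ (b.X : ℤ) * n ∧ (b.X : ℤ) * n < (b.X : ℤ) * n) by omega),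
    if_pos (by omega), ci_right hb hn (by omega)]
  exact ⟨rfl, rfl⟩

lemma jumpB (hb : b.Ok δ σ) (hn : 0 < n) (hR : R ≤ n) : ∀ i ∈ JB b n,
    botB b n (i - 1) = botB b n i ∨ botB b n (i - 1) + R ≤ botB b n i ∨
      botB b n i + R ≤ botB b n (i - 1) := by
  intro i hi
  have hH := H1 hb
  rcases mem_JB.1 hi with rfl | rfl | ⟨j, hj, rfl⟩
  · obtain ⟨h1, h2⟩ := botB_left hb hn
    right; right
    rw [h1, h2]
    nlinarith
  · obtain ⟨h1, h2⟩ := botB_right hb hn
    right; left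
    rw [h1, h2]
    have : (0 : ℤ) ≤ b.K := by positivity
    nlinarith
  · obtain ⟨h1, h2⟩ := botB_st hb hn hj
    right; right
    rw [h1, h2]
    nlinarith

lemma sepB (hb : b.Ok δ σ) (hn : 0 < n) (hR : R ≤ n) :
    ∀ i ∈ JB b n, ∀ j ∈ JB b n, i < j → i + R ≤ j := by
  have key : ∀ i ∈ JB b n, ∃ a : ℤ, i = a * n := by
    intro i hi
    rcases mem_JB.1 hi with rfl | rfl | ⟨i, hi, rfl⟩
    · exact ⟨-b.X, by ring⟩
    · exact ⟨b.X, rfl⟩
    · exact ⟨_, rfl⟩
  intro i hi j hj hij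
  obtain ⟨a, rfl⟩ := key i hi
  obtain ⟨c, rfl⟩ := key j hj
  have h1 : a < c := by
    by_contra h2
    have := mul_le_mul_of_nonneg_right (not_lt.1 h2) hn.le
    linarith
  nlinarith

/-! ### The windows -/

/-- plates end below the height `H` -/
lemma thick_n (hb : b.Ok δ σ) (hd : δ ≤ 1) (hn : 0 < n) :
    ((b.τ : ℤ) + nP b) * n ≤ (b.H : ℤ) * n := by
  have := thick hb hd
  exact mul_le_mul_of_nonneg_right (by omega) hn.le

lemma tau_n (hb : b.Ok δ σ) (hn : 0 < n) : n ≤ (b.τ : ℤ) * n := by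
  have : (1 : ℤ) ≤ b.τ := by exact_mod_cast hb.τ0
  nlinarith

/-- heights of a bank in its columns -/
lemma botA_col (hb : b.Ok δ σ) (hn : 0 < n) (h1 : -((b.X : ℤ) * n) ≤ x) (h2 : x < 0) :
    botA b n x = ((b.τ : ℤ) + pli b n x) * n ∧ (b.τ : ℤ) * n ≤ botA b n x ∧
      botA b n x ≤ ((b.τ : ℤ) + nP b) * n - n := by
  have e1 : botA b n x = ((b.τ : ℤ) + pli b n x) * n := by
    unfold botA
    rw [if_neg (by omega), if_pos h2]
  have h3 := pli_lt hb hn h2 h1
  have h4 : (pli b n x : ℤ) + 1 ≤ nP b := by exact_mod_cast h3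
  have h5 : (0 : ℤ) ≤ pli b n x := by positivity
  refine ⟨e1, ?_, ?_⟩ <;> rw [e1] <;> nlinarith

/-- **room tiles in the windows of a bank** -/
lemma natA (hb : b.Ok δ σ) (hd : δ ≤ 1) (hn : 0 < n) (hR : 2 * R + 2 ≤ n)
    (h1 : -((b.X : ℤ) * n) ≤ x0) (h2 : x0 < 0) (h3 : |x - x0| ≤ R) (h4 : |h - botA b n x0| ≤ R)
    (h5 : botA b n x ≤ h) : InR b n x h := by
  rw [abs_le] at h3 h4
  obtain ⟨e1, e2, e3⟩ := botA_col hb hn h1 h2
  have ht := thick_n hb hd hn
  have ht' := tau_n hb hn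
  have hX := X1 hb
  have hXn : n ≤ (b.X : ℤ) * n := by nlinarith
  have hH : (b.H : ℤ) * n ≤ ((b.H : ℤ) + ci b n x) * n := by
    have : (0 : ℤ) ≤ ci b n x := by positivity
    nlinarith
  rw [InR_tile hb hn, InQ_tile hb hn]
  unfold botA at h5
  by_cases h6 : x < -((b.X : ℤ) * n)
  · rw [if_pos h6] at h5
    exfalso
    linarith
  · rw [if_neg h6] at h5
    by_cases h7 : x < 0
    · rw [if_pos h7] at h5
      have h8 : 0 ≤ ((b.τ : ℤ) + pli b n x) * n := by positivity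
      refine ⟨⟨⟨by omega, by omega⟩, by linarith, by linarith⟩, fun _ => Or.inr h5⟩
    · rw [if_neg h7] at h5
      refine ⟨⟨⟨by omega, by omega⟩, by linarith, by linarith⟩, fun h8 => absurd h8 h7⟩

/-- **wall tiles in the windows of a bank**: a plate, or the layer on the left -/
lemma walA (hb : b.Ok δ σ) (hd : δ ≤ 1) (hn : 0 < n) (hR : 2 * R + 2 ≤ n)
    (h1 : -((b.X : ℤ) * n) ≤ x0) (h2 : x0 < 0) (h3 : |x - x0| ≤ R) (h4 : |h - botA b n x0| ≤ R)
    (h5 : h < botA b n x) (h6 : Tch (botA b n) x h) :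
    (-((b.X : ℤ) * n) ≤ x ∧ x < 0 ∧ InQ b n x h ∧ (b.τ : ℤ) * n - R ≤ h ∧
      h < ((b.τ : ℤ) + pli b n x) * n ∧ pcA b n x = pli b n x) ∨
    (x = -((b.X : ℤ) * n) - 1 ∧ ¬ InQ b n x h ∧ InQ b n (x + 1) h ∧ 0 ≤ h ∧ h < (b.H : ℤ) * n ∧
      pcA b n x = -1) := by
  rw [abs_le] at h3 h4
  obtain ⟨e1, e2, e3⟩ := botA_col hb hn h1 h2
  have ht := thick_n hb hd hn
  have ht' := tau_n hb hn
  have hX := X1 hb
  have hXn : n ≤ (b.X : ℤ) * n := by nlinarith
  have hH : ∀ x, (b.H : ℤ) * n ≤ ((b.H : ℤ) + ci b n x) * n := by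
    intro x
    have : (0 : ℤ) ≤ ci b n x := by positivity
    nlinarith
  by_cases h7 : x < -((b.X : ℤ) * n)
  · right
    obtain ⟨x', h8, h9⟩ := h6
    rw [abs_le] at h8
    have h10 : -((b.X : ℤ) * n) ≤ x' := by
      by_contra h11
      unfold botA at h9
      rw [if_pos (by omega)] at h9
      linarith
    have h11 : x = -((b.X : ℤ) * n) - 1 := by omega
    refine ⟨h11, ?_, ?_, by linarith, by linarith, ?_⟩
    · rw [InQ_tile hb hn]
      omega
    · rw [InQ_tile hb hn]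
      have := hH (x + 1)
      refine ⟨⟨by omega, by omega⟩, by linarith, by linarith⟩
    · unfold pcA
      rw [if_pos h7]
  · left
    have h8 : x < 0 := by
      by_contra h9
      unfold botA at h5
      rw [if_neg h7, if_neg h9] at h5
      linarith
    unfold botA at h5
    rw [if_neg h7, if_pos h8] at h5
    have := hH x
    have h9 := (botA_col hb hn (not_lt.1 h7) h8).2.2
    have h10 := (botA_col hb hn (not_lt.1 h7) h8).1
    refine ⟨by omega, h8, ?_, by linarith, h5, ?_⟩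
    · rw [InQ_tile hb hn]
      refine ⟨⟨by omega, by omega⟩, by linarith, by linarith⟩
    · unfold pcA
      rw [if_neg h7, if_pos h8]

lemma botB_col (hb : b.Ok δ σ) (hn : 0 < n) (h1 : -((b.X : ℤ) * n) ≤ x) (h2 : x < (b.X : ℤ) * n) :
    botB b n x = -(((b.H : ℤ) + ci b n x) * n) ∧ botB b n x ≤ -((b.H : ℤ) * n) := by
  have e1 : botB b n x = -(((b.H : ℤ) + ci b n x) * n) := by
    unfold botB
    rw [if_pos ⟨h1, h2⟩]
  refine ⟨e1, ?_⟩
  rw [e1]
  have : (0 : ℤ) ≤ ci b n x := by positivity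
  nlinarith

/-- **room tiles in the windows of the ceiling / floor** -/
lemma natB (hb : b.Ok δ σ) (hd : δ ≤ 1) (hn : 0 < n) (hR : 2 * R + 2 ≤ n)
    (h1 : -((b.X : ℤ) * n) ≤ x0) (h2 : x0 < (b.X : ℤ) * n) (h3 : |x - x0| ≤ R)
    (h4 : |h - botB b n x0| ≤ R) (h5 : botB b n x ≤ h) : InR b n x h := by
  rw [abs_le] at h3 h4
  obtain ⟨e1, e2⟩ := botB_col hb hn h1 h2
  have ht := thick_n hb hd hn
  have hH := H1 hb
  have hHn : n ≤ (b.H : ℤ) * n := by nlinarith
  rw [InR_tile hb hn, InQ_tile hb hn]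
  by_cases h6 : -((b.X : ℤ) * n) ≤ x ∧ x < (b.X : ℤ) * n
  · obtain ⟨e3, e4⟩ := botB_col hb hn h6.1 h6.2
    rw [e3] at h5
    refine ⟨⟨h6, h5, by linarith⟩, fun h7 => Or.inl ?_⟩
    have h8 := (botA_col hb hn h6.1 h7)
    rw [← h8.1]
    linarith [h8.2.2]
  · exfalso
    unfold botB at h5
    rw [if_neg h6] at h5
    linarith

/-- **wall tiles in the windows of the ceiling / floor** -/
lemma walB (hb : b.Ok δ σ) (hn : 0 < n) (hR : 2 * R + 2 ≤ n)
    (h1 : -((b.X : ℤ) * n) ≤ x0) (h2 : x0 < (b.X : ℤ) * n) (h3 : |x - x0| ≤ R)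
    (h4 : |h - botB b n x0| ≤ R) (h5 : h < botB b n x) (h6 : Tch (botB b n) x h) :
    ¬ InQ b n x h ∧ (∃ x' h', |x' - x| ≤ 1 ∧ |h' - h| ≤ 1 ∧ InQ b n x' h') ∧ h < 0 ∧
      ((x < (b.X : ℤ) * n ∧ ((-1 - h) / n - b.H).toNat = ci b n x) ∨
        (∃ i, i < b.K ∧ x = b.st i * n - 1 ∧ h = -(((b.H : ℤ) + i + 1) * n) - 1 ∧ ci b n x = i ∧
          ((-1 - h) / n - b.H).toNat = i + 1) ∨
        (x = (b.X : ℤ) * n ∧ |h + ((b.H : ℤ) + b.K) * n| ≤ R)) := by
  rw [abs_le] at h3 h4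
  obtain ⟨e1, e2⟩ := botB_col hb hn h1 h2
  have hH := H1 hb
  have hHn : n ≤ (b.H : ℤ) * n := by nlinarith
  have hX := X1 hb
  have hXn : n ≤ (b.X : ℤ) * n := by nlinarith
  have hneg : h < 0 := by linarith
  -- rows: `dst = a` iff `-(a + 1) n ≤ h < - a n`
  have hrow : ∀ a : ℤ, -((a + 1) * n) ≤ h → h < -(a * n) → (-1 - h) / n = a := by
    intro a h7 h8
    apply le_antisymm
    · have := (div_lt' (x := -1 - h) (a := a + 1) hn).2 (by linarith)
      omega
    · exact (le_div' hn).2 (by linarith)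
  obtain ⟨x', h7, h8⟩ := h6
  rw [abs_le] at h7
  have h9 : -((b.X : ℤ) * n) ≤ x' ∧ x' < (b.X : ℤ) * n := by
    by_contra h9
    unfold botB at h8
    rw [if_neg h9] at h8
    linarith
  obtain ⟨e3, e4⟩ := botB_col hb hn h9.1 h9.2
  rw [e3] at h8
  have hQ' : InQ b n x' (h + 1) := by
    rw [InQ_tile hb hn]
    exact ⟨h9, h8, by linarith⟩
  have hNQ : ¬ InQ b n x h := by
    rw [InQ_tile hb hn]
    rintro ⟨h10, h11, h12⟩
    obtain ⟨e5, -⟩ := botB_col hb hn h10.1 h10.2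
    rw [e5] at h5
    omega
  refine ⟨hNQ, ⟨x', h + 1, abs_le.2 ⟨by omega, by omega⟩, by simp, hQ'⟩, hneg, ?_⟩
  rcases lt_or_ge x ((b.X : ℤ) * n) with h10 | h10
  · rcases lt_or_ge x (-((b.X : ℤ) * n)) with h11 | h11
    · -- left of the box
      left
      refine ⟨h10, ?_⟩
      have hc1 : ci b n x = 0 := ci_left hb hn (by omega)
      have hc2 : ci b n x' = 0 := ci_left hb hn (by omega)
      rw [hc1]
      rw [hc2] at h8
      have h12 : (-1 - h) / n < (b.H : ℤ) + 1 := by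
        rw [div_lt' hn]
        push_cast at h8
        nlinarith
      omega
    · obtain ⟨e5, e6⟩ := botB_col hb hn h11 h10
      rw [e5] at h5
      by_cases h12 : -(((b.H : ℤ) + ci b n x + 1) * n) ≤ h
      · left
        refine ⟨h10, ?_⟩
        rw [hrow ((b.H : ℤ) + ci b n x) h12 h5]
        omega
      · right; left
        have hcc : ci b n x < ci b n x' := by
          by_contra h13
          have h14 : (ci b n x' : ℤ) ≤ ci b n x := by exact_mod_cast (not_lt.1 h13)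
          have : ((b.H : ℤ) + ci b n x') * n ≤ ((b.H : ℤ) + ci b n x) * n :=
            mul_le_mul_of_nonneg_right (by omega) hn.le
          nlinarith
        have hxx : x < x' := by
          by_contra h13
          have := ci_mono (b := b) (n := n) (not_lt.1 h13)
          omega
        have hx' : x' = x + 1 := by omega
        have hiK : ci b n x < b.K := by
          have := ci_le (b := b) (n := n) (x := x'); omega
        have h13 := (lt_ci_iff (x := x') hb hn hiK).1 hcc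
        have h14 : ¬ b.st (ci b n x) * n ≤ x := by rw [← lt_ci_iff hb hn hiK]; omega
        have h15 : x' = b.st (ci b n x) * n := by omega
        have h16 : ci b n x' = ci b n x + 1 := by rw [h15]; exact (ci_st hb hn hiK).1
        rw [h16] at h8
        push_cast at h8
        refine ⟨ci b n x, hiK, by omega, ?_, rfl, ?_⟩
        · have : ((b.H : ℤ) + ci b n x + 1) * n = ((b.H : ℤ) + (ci b n x + 1)) * n := by ring
          omega
        · have h17 : ((b.H : ℤ) + (ci b n x + 1)) * n = ((b.H : ℤ) + ci b n x + 1) * n := by ring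
          rw [hrow ((b.H : ℤ) + ci b n x + 1) (by nlinarith) (by omega)]
          omega
  · right; right
    have h11 : x = (b.X : ℤ) * n := by omega
    refine ⟨h11, ?_⟩
    have h12 : ci b n x0 = b.K := ci_right hb hn (by omega)
    rw [e1, h12] at h4
    rw [abs_le]
    constructor <;> linarith

end Pool.Agent.H28.W
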