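import Mathlib
import Pool.Agent.H28.W.JBankT
import Pool.Agent.H73.W.JCut

/-! # C6, JRow: the four banks of a junction box are banks in the sense of `H92/W/Bank`

`Base` : the coins, the configuration map `c` and the layer in the windows. `bankA` : bank of the slit,
`bankB` : ceiling / floor. -/

set_option autoImplicit false
open Finset

namespace Pool.Agent.H28.W

open Pool.Agent.H6.W Pool.Agent.H21.W Pool.Agent.H61.W Pool.Agent.H71.W
open Pool.Agent.H33.Q1 Pool.Agent.H50.W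
open Pool.Agent.H92.W (τ Tch Wdw Wall Bank uB nB)
open Pool.Agent.H58.W (up)

variable {b : JBox} {δ σ : ℝ} {n R x y h x0 xs xe : ℤ} {s : Bool} {γ : Type*} [DecidableEq γ]
  {M : Finset (Bool × ℕ)} {D : Set (ℤ × ℤ)} {E F : Finset (ℤ × ℤ)} {bc : ℤ × ℤ → γ}
  {c : Finset (ℤ × ℤ) → Finset (ℤ × ℤ)} {u : ℤ × ℤ → ℤ × ℤ}

lemma τ_eq : τ s x h = lt (x, ys s h) := rfl

/-- natural label: own coin, shown by `c` -/
def NatL (E : Finset (ℤ × ℤ)) (bc : ℤ × ℤ → γ) (c : Finset (ℤ × ℤ) → Finset (ℤ × ℤ))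
    (e : ℤ × ℤ) : Prop :=
  e ∈ E ∧ (∀ l ∈ E, bc l = bc e → l = e) ∧ ∀ ω ⊆ E, (e ∈ c ω ↔ e ∈ ω)

/-- what the two kinds of banks have in common, in the windows of `bot` -/
structure Base (b : JBox) (n : ℤ) (s : Bool) (D : Set (ℤ × ℤ)) (E : Finset (ℤ × ℤ))
    (bc : ℤ × ℤ → γ) (c : Finset (ℤ × ℤ) → Finset (ℤ × ℤ)) (F : Finset (ℤ × ℤ))
    (u : ℤ × ℤ → ℤ × ℤ) (xs xe R : ℤ) (bot : ℤ → ℤ) : Prop where
  /-- no deleted tile in the windows -/
  del : ∀ x h, Wdw xs xe R bot x h → τ s x h ∉ D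
  /-- room tiles are natural -/
  nat : ∀ x h, Wdw xs xe R bot x h → InR b n x h → NatL E bc c (τ s x h)
  /-- the forced tiles in the windows -/
  row : ∀ x h, Wdw xs xe R bot x h → Tch bot x h → τ s x h ∈ F →
    h = bot x ∧ u (τ s x h) = uB s (τ s x h)

/-- the world contains the box and the layer tiles which touch it, except for the diagonal tiles of `M` -/
def LamOK (b : JBox) (n : ℤ) (M : Finset (Bool × ℕ)) (Λ : Set (ℤ × ℤ)) : Prop :=
  (∀ x y, InQ b n x y → lt (x, y) ∈ Λ) ∧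
  ∀ x y x' y', ¬ InQ b n x y → InQ b n x' y' → |x' - x| ≤ 1 → |y' - y| ≤ 1 →
    (∀ c ∈ M, (x, y) ≠ dgt b n c) → lt (x, y) ∈ Λ

lemma lamOK_Lam : LamOK b n M (Lam b n M) :=
  ⟨fun x y hq => ⟨x, y, rfl, Or.inl hq⟩, fun x y x' y' h1 h2 h3 h4 hd => ⟨x, y, rfl,
    Or.inr ⟨Ly_of h1 h2 (h3.trans (by norm_num)) (h4.trans (by norm_num)), hd⟩⟩⟩

/-- diagonal tiles are outside the box -/
lemma dgt_notQ (hb : b.Ok δ σ) (hn : 0 < n) {c : Bool × ℕ} (hK : c.2 < b.K) (he : (x, y) = dgt b n c) :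
    ¬ InQ b n x y := by
  rw [dgt_eq, Prod.mk.injEq] at he
  rw [he.1, he.2, InQ_ys hb hn, InQ_tile hb hn]
  rintro ⟨-, h5, -⟩
  rw [(ci_st hb hn hK).2] at h5
  nlinarith

lemma lamOK_LamT (hb : b.Ok δ σ) (hn : 0 < n) (hM : ∀ c ∈ M, c.2 < b.K) :
    LamOK b n M (Pool.Agent.H73.W.LamT b n M) :=
  ⟨fun x y hq => ⟨x, y, rfl, ⟨0, 0, by simp, by simp, by simpa using hq⟩,
      fun c hc he => dgt_notQ hb hn (hM c hc) he hq⟩,
    fun x y x' y' _ h2 h3 h4 hd => ⟨x, y, rfl, ⟨x' - x, y' - y, h3, h4, by simpa using h2⟩, hd⟩⟩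

/-- **a bank of the slit** -/
theorem bankA {Λ : Set (ℤ × ℤ)} (hb : b.Ok δ σ) (hd : δ ≤ 1) (hn : 0 < n) (hR : 2 * R + 2 ≤ n)
    (hΛ : LamOK b n M Λ)
    (hxs : -((b.X : ℤ) * n) ≤ xs) (hxe : xe ≤ 0) (hM : ∀ c ∈ M, c.2 < b.K)
    (B : Base b n s D E bc c F u xs xe R (botA b n))
    (hpl : ∀ x h x' h', Wdw xs xe R (botA b n) x h → Wdw xs xe R (botA b n) x' h' →
      (-((b.X : ℤ) * n) ≤ x ∧ x < 0) → (-((b.X : ℤ) * n) ≤ x' ∧ x' < 0) →
      ((b.τ : ℤ) * n - R ≤ h ∧ h < ((b.τ : ℤ) + pli b n x) * n) →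
      ((b.τ : ℤ) * n - R ≤ h' ∧ h' < ((b.τ : ℤ) + pli b n x') * n) → pli b n x = pli b n x' →
      ∀ ω : Finset γ, (τ s x h ∈ c (up E bc ω) ↔ τ s x' h' ∈ c (up E bc ω)))
    (hll : ∀ h h', Wdw xs xe R (botA b n) (-((b.X : ℤ) * n) - 1) h →
      Wdw xs xe R (botA b n) (-((b.X : ℤ) * n) - 1) h' → (0 ≤ h ∧ h < (b.H : ℤ) * n) →
      (0 ≤ h' ∧ h' < (b.H : ℤ) * n) →
      ∀ ω : Finset γ, (τ s (-((b.X : ℤ) * n) - 1) h ∈ c (up E bc ω) ↔
        τ s (-((b.X : ℤ) * n) - 1) h' ∈ c (up E bc ω))) :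
    Bank s Λ D E bc c F u xs xe R (botA b n) (pcA b n) (fun _ _ => False) (JA b n) where
  cst x _ _ hx := cstA hb hn hx
  sep := sepA hb hn (by omega)
  jump := jumpA hb hn (by omega)
  nat x h hw hx := by
    obtain ⟨x0, h1, h2, h3, h4⟩ := id hw
    have hr := natA hb hd hn hR (hxs.trans h1) (by omega) h3 h4 hx
    refine ⟨?_, B.del x h hw, B.nat x h hw hr⟩
    rw [τ_eq]
    exact hΛ.1 _ _ ((InQ_ys hb hn).2 hr.1)
  wal x h hw hx := by
    obtain ⟨x0, h1, h2, h3, h4⟩ := id hw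
    refine ⟨?_, B.del x h hw⟩
    rw [τ_eq]
    rcases walA hb hd hn hR (hxs.trans h1) (by omega) h3 h4 hx.1 hx.2.1 with
      ⟨-, -, h5, -⟩ | ⟨h5, h6, h7, h8, h9, -⟩
    · exact hΛ.1 _ _ ((InQ_ys hb hn).2 h5)
    · refine hΛ.2 _ _ _ _ (fun h => h6 ((InQ_ys hb hn).1 h)) ((InQ_ys (s := s) hb hn).2 h7)
        (by rw [abs_le]; omega) (by simp) ?_
      intro c hc he
      have h10 := congrArg Prod.fst he
      unfold dgt cpt at h10
      simp only at h10
      have := (st_bd hb hn (hM c hc)).1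
      omega
  col x h x' h' hw hx hw' hx' hp := by
    obtain ⟨x0, h1, h2, h3, h4⟩ := id hw
    obtain ⟨x0', h1', h2', h3', h4'⟩ := id hw'
    rcases walA hb hd hn hR (hxs.trans h1) (by omega) h3 h4 hx.1 hx.2.1 with
      ⟨k1, k2, -, k4, k5, k6⟩ | ⟨k1, -, -, k4, k5, k6⟩ <;>
    rcases walA hb hd hn hR (hxs.trans h1') (by omega) h3' h4' hx'.1 hx'.2.1 with
      ⟨k1', k2', -, k4', k5', k6'⟩ | ⟨k1', -, -, k4', k5', k6'⟩
    · refine hpl x h x' h' hw hw' ⟨k1, k2⟩ ⟨k1', k2'⟩ ⟨k4, k5⟩ ⟨k4', k5'⟩ ?_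
      rw [k6, k6'] at hp
      exact_mod_cast hp
    · rw [k6, k6'] at hp
      have : (0 : ℤ) ≤ pli b n x := by positivity
      omega
    · rw [k6, k6'] at hp
      have : (0 : ℤ) ≤ pli b n x' := by positivity
      omega
    · subst k1
      subst k1'
      exact hll h h' hw hw' ⟨k4, k5⟩ ⟨k4', k5'⟩
  hol _ _ _ h := absurd h id
  hcV _ _ _ _ _ h := absurd h id
  hcF _ _ _ _ _ h := absurd h id
  row := B.row

/-- the holes at the marks -/
def HlB (b : JBox) (n : ℤ) (M : Finset (Bool × ℕ)) (s : Bool) (x h : ℤ) : Prop :=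
  ∃ i, ((!s, i) : Bool × ℕ) ∈ M ∧ x = b.st i * n - 1 ∧ h = -(((b.H : ℤ) + i + 1) * n) - 1

lemma HlB_iff : HlB b n M s x h ↔ ∃ c ∈ M, c.1 = (!s) ∧ (x, ys s h) = dgt b n c := by
  constructor
  · rintro ⟨i, h1, h2, h3⟩
    refine ⟨_, h1, rfl, ?_⟩
    rw [dgt_eq]
    simp only [Bool.not_not, h2, h3]
  · rintro ⟨c, h1, h2, h3⟩
    rw [dgt_eq, h2, Bool.not_not, Prod.mk.injEq] at h3
    refine ⟨c.2, ?_, h3.1, ?_⟩
    · rw [← h2]; exact h1
    · have := congrArg (ys s) h3.2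
      rwa [ys_ys, ys_ys] at this

/-- rows of the other half -/
lemma ys_ne {h' : ℤ} (hh : h < 0) (hh' : h' < 0) : ys s h ≠ ys (!s) h' := by
  unfold ys
  cases s <;> simp <;> omega

lemma Wdw_succ {bot : ℤ → ℤ} (hw : Wdw xs xe R bot x h) : Wdw xs xe (R + 1) bot x h := by
  obtain ⟨x0, h1, h2, h3, h4⟩ := hw
  exact ⟨x0, h1, h2, by omega, by omega⟩

/-- **ceiling, floor** -/
theorem bankB {Λ : Set (ℤ × ℤ)} (hb : b.Ok δ σ) (hd : δ ≤ 1) (hn : 0 < n) (hR : 2 * R + 2 ≤ n)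
    (hΛ : LamOK b n M Λ)
    (hxs : -((b.X : ℤ) * n) ≤ xs) (hxe : xe ≤ (b.X : ℤ) * n) (hM : ∀ c ∈ M, c.2 < b.K)
    (B : Base b n s D E bc c F u xs xe R (botB b n))
    (co : ℕ → Bool) (hco : ∀ i, i < b.K → (((!s, i) : Bool × ℕ) ∉ M ↔ co (i + 1) = co i))
    (h1 : ∀ x h, Wdw xs xe (R + 1) (botB b n) x h → ¬ InQ b n x h → Tch (botB b n) x h →
      x < (b.X : ℤ) * n → ((-1 - h) / n - b.H).toNat ≤ b.K → ∀ ω : Finset γ,
      (τ s x h ∈ c (up E bc ω) ↔ co ((-1 - h) / n - b.H).toNat = true))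
    (h2 : ∀ h, Wdw xs xe R (botB b n) ((b.X : ℤ) * n) h → ¬ InQ b n ((b.X : ℤ) * n) h →
      Tch (botB b n) ((b.X : ℤ) * n) h → |h + ((b.H : ℤ) + b.K) * n| ≤ R → ∀ ω : Finset γ,
      (τ s ((b.X : ℤ) * n) h ∈ c (up E bc ω) ↔ co b.K = true)) :
    Bank s Λ D E bc c F u xs xe R (botB b n) (pcB b n M s) (HlB b n M s) (JB b n) := by
  -- colours
  have hcc : ∀ i j, i ≤ j → j ≤ b.K → (M.filter fun c => c.1 = !s ∧ c.2 < i).card =
      (M.filter fun c => c.1 = !s ∧ c.2 < j).card → co i = co j := by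
    intro i j hij
    induction j, hij using Nat.le_induction with
    | base => intro _ _; rfl
    | succ j hj ih =>
      intro hjK hcard
      have hm1 : (M.filter fun c => c.1 = !s ∧ c.2 < i) ⊆ (M.filter fun c => c.1 = !s ∧ c.2 < j) := by
        intro c hc
        rw [mem_filter] at hc ⊢
        exact ⟨hc.1, hc.2.1, by omega⟩
      have hm2 : (M.filter fun c => c.1 = !s ∧ c.2 < j) ⊆
          (M.filter fun c => c.1 = !s ∧ c.2 < j + 1) := by
        intro c hc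
        rw [mem_filter] at hc ⊢
        exact ⟨hc.1, hc.2.1, by omega⟩
      have e1 := card_le_card hm1
      have e2 := card_le_card hm2
      rw [ih (by omega) (by omega)]
      symm
      rw [← hco j (by omega)]
      intro hmem
      have hlt : (M.filter fun c => c.1 = !s ∧ c.2 < j).card <
          (M.filter fun c => c.1 = !s ∧ c.2 < j + 1).card := by
        apply card_lt_card
        refine ⟨hm2, fun h => ?_⟩
        have := h (mem_filter.2 ⟨hmem, rfl, Nat.lt_succ_self j⟩)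
        rw [mem_filter] at this
        exact absurd this.2.2 (lt_irrefl _)
      omega
  have hcc' : ∀ i j, i ≤ b.K → j ≤ b.K → (M.filter fun c => c.1 = !s ∧ c.2 < i).card =
      (M.filter fun c => c.1 = !s ∧ c.2 < j).card → co i = co j := by
    intro i j hi hj he
    rcases le_total i j with h | h
    · exact hcc i j h hj he
    · exact (hcc j i h hi he.symm).symm
  have hneg : ∀ x h, Wdw xs xe R (botB b n) x h → h < 0 := by
    rintro x h ⟨x0, k1, k2, k3, k4⟩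
    have k5 := (botB_col hb hn (hxs.trans k1) (k2.trans_le hxe)).2
    have hH := H1 hb
    have hHn : n ≤ (b.H : ℤ) * n := by nlinarith
    rw [abs_le] at k4
    linarith
  have hlow : ∀ i, i < b.K → ∀ x', x' ≤ b.st i * n →
      -(((b.H : ℤ) + i + 1) * n) - 1 + 1 ≤ botB b n x' := by
    intro i hi x' hx'
    have h4 := ci_mono (b := b) (n := n) hx'
    rw [(ci_st hb hn hi).1] at h4
    have h4' : (ci b n x' : ℤ) ≤ i + 1 := by exact_mod_cast h4
    unfold botB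
    split_ifs
    · nlinarith
    · have : 0 ≤ ((b.H : ℤ) + i + 1) * n := by positivity
      linarith
  -- the colour of a wall tile
  have hcol : ∀ x h, Wdw xs xe R (botB b n) x h → Wall (botB b n) (HlB b n M s) x h →
      ∀ ω : Finset γ, (τ s x h ∈ c (up E bc ω) ↔ co (ci b n x) = true) := by
    intro x h hw hx ω
    obtain ⟨x0, k1, k2, k3, k4⟩ := id hw
    obtain ⟨k5, -, -, k6⟩ := walB hb hn hR (hxs.trans k1) (by omega) k3 k4 hx.1 hx.2.1
    rcases k6 with ⟨k7, k8⟩ | ⟨i, k7, k8, k9, k10, k11⟩ | ⟨k7, k8⟩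
    · have := h1 x h (Wdw_succ hw) k5 hx.2.1 k7 (by rw [k8]; exact ci_le) ω
      rwa [k8] at this
    · have h3 : ((!s, i) : Bool × ℕ) ∉ M := fun hm => hx.2.2 ⟨i, hm, k8, k9⟩
      have h4 := (hco i k7).1 h3
      have h5 := (st_bd hb hn k7).2
      have := h1 x h (Wdw_succ hw) k5 hx.2.1 (by omega) (by rw [k11]; omega) ω
      rw [k11, h4] at this
      rw [k10]
      exact this
    · subst k7
      rw [ci_right hb hn (by omega)]
      exact h2 h hw k5 hx.2.1 k8 ω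
  -- the colour changes at a mark
  have hcl : ∀ x h x', Wdw xs xe R (botB b n) x h → HlB b n M s x h → |x' - x| ≤ 1 →
      botB b n x' = h + 1 → ∀ ω : Finset γ,
      (τ s x' h ∈ c (up E bc ω) ↔ τ s x (h + 1) ∉ c (up E bc ω)) := by
    rintro x h x' hw ⟨i, k1, rfl, rfl⟩ hx' hbx ω
    have hi : i < b.K := hM _ k1
    obtain ⟨e1, e2⟩ := botB_st hb hn hi
    obtain ⟨x0, q1, q2, q3, q4⟩ := id hw
    rw [abs_le] at hx' q3 q4
    have hst := st_bd hb hn hi
    have hxx : x' = b.st i * n := by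
      by_contra hne
      have h3 : x' ≤ b.st i * n - 1 := by omega
      have h4 := ci_mono (b := b) (n := n) h3
      rw [(ci_st hb hn hi).2] at h4
      have h4' : (ci b n x' : ℤ) ≤ i := by exact_mod_cast h4
      unfold botB at hbx
      split_ifs at hbx
      · nlinarith
      · have : 0 ≤ (b.H : ℤ) * n := by positivity
        nlinarith
    subst hxx
    have hdiv1 : (-1 - (-(((b.H : ℤ) + i + 1) * n) - 1)) / n = (b.H : ℤ) + i + 1 := by
      rw [show -1 - (-(((b.H : ℤ) + i + 1) * n) - 1) = ((b.H : ℤ) + i + 1) * n by ring]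
      exact Int.mul_ediv_cancel _ hn.ne'
    have hdiv2 : (-1 - (-(((b.H : ℤ) + i + 1) * n) - 1 + 1)) / n = (b.H : ℤ) + i := by
      apply le_antisymm
      · have := (div_lt' (x := -1 - (-(((b.H : ℤ) + i + 1) * n) - 1 + 1))
          (a := (b.H : ℤ) + i + 1) hn).2 (by nlinarith)
        omega
      · exact (le_div' hn).2 (by nlinarith)
    have hX := X1 hb
    have f1 := h1 (b.st i * n) (-(((b.H : ℤ) + i + 1) * n) - 1)
      ⟨x0, q1, q2, by rw [abs_le]; omega, by rw [abs_le]; omega⟩ (by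
        rw [InQ_tile hb hn]
        rintro ⟨-, h5, -⟩
        rw [(ci_st hb hn hi).1] at h5
        push_cast at h5
        nlinarith) ⟨b.st i * n, by simp, by rw [e2]; linarith⟩ (by linarith)
      (by rw [hdiv1]; omega) ω
    have f2 := h1 (b.st i * n - 1) (-(((b.H : ℤ) + i + 1) * n) - 1 + 1)
      ⟨x0, q1, q2, by rw [abs_le]; omega, by rw [abs_le]; omega⟩ (by
        rw [InQ_tile hb hn]
        rintro ⟨-, h5, -⟩
        rw [(ci_st hb hn hi).2] at h5
        nlinarith) ⟨b.st i * n, by simp, by rw [e2]; linarith⟩ (by linarith)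
      (by rw [hdiv2]; omega) ω
    rw [f1, f2, hdiv1, hdiv2]
    have h6 : ¬ (co (i + 1) = co i) := fun h => (hco i hi).2 h k1
    rw [show ((b.H : ℤ) + i + 1 - b.H).toNat = i + 1 by omega,
      show ((b.H : ℤ) + i - b.H).toNat = i by omega]
    cases h7 : co (i + 1) <;> cases h8 : co i <;> rw [h7, h8] at h6 <;> simp at h6 ⊢
  refine
    { cst := fun x _ _ hx => cstB hx M s
      sep := sepB hb hn (by omega)
      jump := jumpB hb hn (by omega)
      nat := ?_, wal := ?_, col := ?_, hol := ?_, hcV := ?_, hcF := ?_, row := B.row }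
  · intro x h hw hx
    obtain ⟨x0, k1, k2, k3, k4⟩ := id hw
    have hr := natB hb hd hn hR (hxs.trans k1) (by omega) k3 k4 hx
    refine ⟨?_, B.del x h hw, B.nat x h hw hr⟩
    rw [τ_eq]
    exact hΛ.1 _ _ ((InQ_ys hb hn).2 hr.1)
  · intro x h hw hx
    obtain ⟨x0, k1, k2, k3, k4⟩ := id hw
    refine ⟨?_, B.del x h hw⟩
    rw [τ_eq]
    obtain ⟨k5, ⟨x', h', k6, k7, k8⟩, k9, -⟩ :=
      walB hb hn hR (hxs.trans k1) (by omega) k3 k4 hx.1 hx.2.1
    refine hΛ.2 _ _ _ _ (fun h => k5 ((InQ_ys hb hn).1 h)) ((InQ_ys (s := s) hb hn).2 k8)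
      k6 ?_ ?_
    · have : |ys s h' - ys s h| = |h' - h| := by
        unfold ys
        cases s
        · simp only [Bool.false_eq_true, if_false]
          rw [show -1 - h' - (-1 - h) = -(h' - h) by ring, abs_neg]
        · simp
      rw [this]
      exact k7
    · intro c hc he
      by_cases hcs : c.1 = (!s)
      · exact hx.2.2 (HlB_iff.2 ⟨c, hc, hcs, he⟩)
      · have hcs' : (!c.1) = (!s) := by
          cases h5 : c.1 <;> cases h6 : s <;> rw [h5, h6] at hcs <;> simp at hcs ⊢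
        rw [dgt_eq, hcs', Prod.mk.injEq] at he
        refine ys_ne k9 ?_ he.2
        have : (0 : ℤ) ≤ ((b.H : ℤ) + c.2 + 1) * n := by positivity
        omega
  · intro x h x' h' hw hx hw' hx' hp ω
    rw [hcol x h hw hx ω, hcol x' h' hw' hx' ω]
    have : co (ci b n x) = co (ci b n x') := by
      apply hcc' _ _ ci_le ci_le
      unfold pcB at hp
      exact_mod_cast hp
    rw [this]
  · rintro x h - ⟨i, k1, rfl, rfl⟩
    have hi : i < b.K := hM _ k1
    obtain ⟨e1, e2⟩ := botB_st hb hn hi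
    refine ⟨by rw [e1]; nlinarith, fun x' hx' => ?_⟩
    rw [abs_le] at hx'
    exact hlow i hi x' (by omega)
  · intro x h x' v hw hl hx hb' _ _ ω
    have := hcl x h x' hw hl hx hb' ω
    tauto
  · intro x h x' v hw hl hx hb' _ _ ω
    have := hcl x h x' hw hl hx hb' ω
    tauto

end Pool.Agent.H28.W
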