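import Mathlib
import Pool.Agent.H28.W.JBank

/-! # C6, JRow: the configurations of the junction worlds

`cJ b h o Fp L ω` : `P` open / closed (`o`), the plate labels `Fp` flipped, open layer labels `L`. -/

set_option autoImplicit false
open Finset

namespace Pool.Agent.H28.W

open Pool.Agent.H6.W Pool.Agent.H21.W Pool.Agent.H61.W Pool.Agent.H71.W
open Pool.Agent.H33.Q1 Pool.Agent.H50.W
open Pool.Agent.H92.W (τ Tch Wdw Wall Bank uB nB)
open Pool.Agent.H58.W (up mem_up)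

variable {b : JBox} {δ σ : ℝ} {h : ℕ} {n x y k : ℤ} {s o : Bool} {Fp L ω : Finset (ℤ × ℤ)}

/-- configuration of a junction world -/
noncomputable def cJ (b : JBox) (h : ℕ) (o : Bool) (Fp L ω : Finset (ℤ × ℤ)) : Finset (ℤ × ℤ) :=
  symmDiff (cfg b h o ω) Fp ∪ L

lemma n_pos (hh : 0 < h) : (0 : ℤ) < 2 * h := by positivity

lemma mem_B' (hh : 0 < h) {e : ℤ × ℤ} :
    e ∈ b.B h ↔ (e.1 + e.2) % 2 = 1 ∧ InQ b (2 * h) (tt e).1 (tt e).2 := by
  unfold JBox.B
  rw [mem_TL (by positivity)]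
  rfl

lemma lt_mem_B (hh : 0 < h) : lt (x, y) ∈ b.B h ↔ InQ b (2 * h) x y := by
  rw [mem_B' hh, tt_lt]
  exact ⟨fun h => h.2, fun h => ⟨lt_odd _, h⟩⟩

/-- tiles of the chunk `P` -/
lemma lt_mem_Pl (hb : b.Ok δ σ) (hh : 0 < h) : lt (x, y) ∈ b.Pl h ↔
    x < 0 ∧ pli b (2 * h) x < b.m ∧ -(((b.τ : ℤ) + pli b (2 * h) x) * (2 * h)) ≤ y ∧
      y < ((b.τ : ℤ) + pli b (2 * h) x) * (2 * h) := by
  unfold JBox.Pl
  rw [mem_TL (n_pos hh), tt_lt]
  have key : ∀ i : ℕ, (x / (2 * (h : ℤ)), y / (2 * (h : ℤ))) ∈ Pool.Agent.H6.W.RC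
      (-((i + 1) * b.M : ℤ)) (-(i * b.M : ℤ)) (-((b.τ : ℤ) + i)) ((b.τ : ℤ) + i) ↔
      chn 0 b.M b.τ (x / (2 * (h : ℤ)), y / (2 * (h : ℤ))) = some i := by
    intro i
    rw [chn_some hb.M0, pix_le]
    unfold Pool.Agent.H6.W.RC
    rw [mem_product, mem_Ico, mem_Ico, zero_sub, zero_sub]
  unfold JBox.Pc
  rw [mem_biUnion]
  constructor
  · rintro ⟨_, i, hi, h1⟩
    have h2 := (key i).1 h1
    rw [chn_tile hb (n_pos hh)] at h2
    obtain ⟨h3, rfl, h4, h5⟩ := h2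
    exact ⟨h3, mem_range.1 hi, h4, h5⟩
  · rintro ⟨h1, h2, h3, h4⟩
    refine ⟨lt_odd _, pli b (2 * h) x, mem_range.2 h2, ?_⟩
    apply (key _).2
    rw [chn_tile hb (n_pos hh)]
    exact ⟨h1, rfl, h3, h4⟩

lemma cfg_sub_iff {e : ℤ × ℤ} (he : e ∉ b.Pl h) : e ∈ cfg b h o ω ↔ e ∈ ω := by
  unfold cfg
  split_ifs
  · rw [mem_union]; tauto
  · rw [mem_sdiff]; tauto

lemma cfg_Pl {e : ℤ × ℤ} (he : e ∈ b.Pl h) : e ∈ cfg b h o ω ↔ o = true := by
  unfold cfg
  split_ifs with h1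
  · rw [mem_union]; tauto
  · rw [mem_sdiff]; tauto

/-- the flipped labels are labels of plates -/
def PlF (b : JBox) (h : ℕ) (Fp : Finset (ℤ × ℤ)) : Prop :=
  ∀ x y, lt (x, y) ∈ Fp → InC b (2 * h) x y

/-- the layer labels are outside of the box -/
def LayF (b : JBox) (h : ℕ) (L : Finset (ℤ × ℤ)) : Prop :=
  ∀ x y, lt (x, y) ∈ L → ¬ InQ b (2 * h) x y

/-- **room tiles are natural** -/
theorem natL_J (hb : b.Ok δ σ) (hh : 0 < h) (hF : PlF b h Fp) (hL : LayF b h L)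
    (hR : InR b (2 * h) x y) :
    NatL (b.B h) (bk (2 * (h : ℤ)) (chn 0 b.M b.τ)) (cJ b h o Fp L) (lt (x, y)) := by
  have hn := n_pos hh
  have hno : chn 0 b.M b.τ (ct (2 * (h : ℤ)) (tt (lt (x, y)))) = none := by
    rw [tt_lt]; exact hR.2
  refine ⟨(lt_mem_B hh).2 hR.1, ?_, ?_⟩
  · intro l _ hl
    rw [bk_none hno] at hl
    rcases h1 : chn 0 b.M b.τ (ct (2 * (h : ℤ)) (tt l)) with _ | i
    · rw [bk_none h1] at hl
      exact Sum.inl_injective hl
    · rw [bk_some h1] at hl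
      exact absurd hl (by simp)
  · intro ω _
    have h1 : lt (x, y) ∉ b.Pl h := by
      rw [lt_mem_Pl hb hh]
      rintro ⟨k1, -, k2, k3⟩
      rcases ((InR_tile hb hn).1 hR).2 k1 with k4 | k4 <;> omega
    have h2 : lt (x, y) ∉ Fp := fun h => (hF x y h).2 hR.2
    have h3 : lt (x, y) ∉ L := fun h => hL x y h hR.1
    unfold cJ
    rw [mem_union, mem_symmDiff, cfg_sub_iff h1]
    tauto

/-- **a half plate has one colour** -/
theorem plate_J (hb : b.Ok δ σ) (hh : 0 < h) (hL : LayF b h L) {x' y' : ℤ} (hx : x < 0) (hx' : x' < 0)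
    (hX : -((b.X : ℤ) * (2 * h)) ≤ x) (hX' : -((b.X : ℤ) * (2 * h)) ≤ x')
    (hp : pli b (2 * h) x = pli b (2 * h) x')
    (hy : -(((b.τ : ℤ) + pli b (2 * h) x) * (2 * h)) ≤ y ∧ y < ((b.τ : ℤ) + pli b (2 * h) x) * (2 * h))
    (hy' : -(((b.τ : ℤ) + pli b (2 * h) x') * (2 * h)) ≤ y' ∧
      y' < ((b.τ : ℤ) + pli b (2 * h) x') * (2 * h)) (hd : δ ≤ 1)
    (hF : lt (x, y) ∈ Fp ↔ lt (x', y') ∈ Fp) (ω : Finset ((ℤ × ℤ) ⊕ ℕ)) :
    lt (x, y) ∈ cJ b h o Fp L (up (b.B h) (bk (2 * (h : ℤ)) (chn 0 b.M b.τ)) ω) ↔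
      lt (x', y') ∈ cJ b h o Fp L (up (b.B h) (bk (2 * (h : ℤ)) (chn 0 b.M b.τ)) ω) := by
  have hn := n_pos hh
  have hX1 := X1 hb
  have hXn : 0 < (b.X : ℤ) * (2 * h) := by positivity
  have hQ : ∀ x y : ℤ, x < 0 → -((b.X : ℤ) * (2 * h)) ≤ x →
      (-(((b.τ : ℤ) + pli b (2 * h) x) * (2 * h)) ≤ y ∧
        y < ((b.τ : ℤ) + pli b (2 * h) x) * (2 * h)) → InQ b (2 * h) x y := by
    intro x y h1 h2 h3
    rw [InQ_tile hb hn]
    obtain ⟨h4, -, h5⟩ := botA_col hb hn h2 h1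
    have h6 := thick_n hb hd hn
    rw [h4] at h5
    have : (0 : ℤ) ≤ ci b (2 * h) x := by positivity
    have h7 : (b.H : ℤ) * (2 * h) ≤ ((b.H : ℤ) + ci b (2 * h) x) * (2 * h) := by nlinarith
    refine ⟨⟨h2, by omega⟩, by linarith, by linarith⟩
  have q1 := hQ x y hx hX hy
  have q2 := hQ x' y' hx' hX' hy'
  have e1 : lt (x, y) ∉ L := fun h => hL x y h q1
  have e2 : lt (x', y') ∉ L := fun h => hL x' y' h q2
  have b1 : bk (2 * (h : ℤ)) (chn 0 b.M b.τ) (lt (x, y)) = Sum.inr (pli b (2 * h) x) := by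
    apply bk_some
    rw [tt_lt]
    exact (chn_tile hb hn).2 ⟨hx, rfl, hy.1, hy.2⟩
  have b2 : bk (2 * (h : ℤ)) (chn 0 b.M b.τ) (lt (x', y')) = Sum.inr (pli b (2 * h) x') := by
    apply bk_some
    rw [tt_lt]
    exact (chn_tile hb hn).2 ⟨hx', rfl, hy'.1, hy'.2⟩
  have key : lt (x, y) ∈ cfg b h o (up (b.B h) (bk (2 * (h : ℤ)) (chn 0 b.M b.τ)) ω) ↔
      lt (x', y') ∈ cfg b h o (up (b.B h) (bk (2 * (h : ℤ)) (chn 0 b.M b.τ)) ω) := by
    by_cases hm : pli b (2 * h) x < b.m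
    · have h1 : lt (x, y) ∈ b.Pl h := (lt_mem_Pl hb hh).2 ⟨hx, hm, hy.1, hy.2⟩
      have h2 : lt (x', y') ∈ b.Pl h := (lt_mem_Pl hb hh).2 ⟨hx', hp ▸ hm, hy'.1, hy'.2⟩
      rw [cfg_Pl h1, cfg_Pl h2]
    · have h1 : lt (x, y) ∉ b.Pl h := fun h1 => hm ((lt_mem_Pl hb hh).1 h1).2.1
      have h2 : lt (x', y') ∉ b.Pl h := fun h1 => hm (hp ▸ ((lt_mem_Pl hb hh).1 h1).2.1)
      rw [cfg_sub_iff h1, cfg_sub_iff h2, mem_up, mem_up, b1, b2, hp, lt_mem_B hh, lt_mem_B hh]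
      simp [q1, q2]
  unfold cJ
  rw [mem_union, mem_union, mem_symmDiff, mem_symmDiff, key, hF]
  simp [e1, e2]

/-- layer tiles -/
theorem layer_J (hh : 0 < h) (hF : PlF b h Fp) (hω : ω ⊆ b.B h) (hP : b.Pl h ⊆ b.B h)
    (hQ : ¬ InQ b (2 * h) x y) :
    lt (x, y) ∈ cJ b h o Fp L ω ↔ lt (x, y) ∈ L := by
  have h1 : lt (x, y) ∉ b.B h := fun h => hQ ((lt_mem_B hh).1 h)
  have h2 : lt (x, y) ∉ cfg b h o ω := by
    unfold cfg
    split_ifs
    · rw [mem_union]; rintro (h3 | h3)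
      · exact h1 (hω h3)
      · exact h1 (hP h3)
    · rw [mem_sdiff]; rintro ⟨h3, -⟩; exact h1 (hω h3)
  have h3 : lt (x, y) ∉ Fp := fun h => hQ (hF x y h).1
  unfold cJ
  rw [mem_union, mem_symmDiff]
  tauto

/-- the chunk is part of the box -/
lemma Pl_sub (hb : b.Ok δ σ) (hd : δ ≤ 1) (hh : 0 < h) (hm : b.m ≤ nP b) : b.Pl h ⊆ b.B h := by
  intro e he
  have ho : (e.1 + e.2) % 2 = 1 := by
    unfold JBox.Pl at he
    rw [mem_TL (n_pos hh)] at he
    exact he.1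
  have hn := n_pos hh
  rw [← lt_tt ho] at he ⊢
  generalize tt e = t at he ⊢
  obtain ⟨x, y⟩ := t
  rw [lt_mem_Pl hb hh] at he
  obtain ⟨h1, h2, h3, h4⟩ := he
  rw [lt_mem_B hh, InQ_tile hb hn]
  have h5 : -((b.X : ℤ) * (2 * h)) ≤ x := by
    have h6 := (pli_spec hb hn h1).1
    have hM : (0 : ℤ) < b.M := by exact_mod_cast hb.M0
    have h7 : ((pli b (2 * h) x : ℤ) + 1) * b.M * (2 * h) ≤ (nP b : ℤ) * b.M * (2 * h) := by
      have : (pli b (2 * h) x : ℤ) + 1 ≤ nP b := by exact_mod_cast h2.trans_le hm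
      exact mul_le_mul_of_nonneg_right (mul_le_mul_of_nonneg_right this hM.le) hn.le
    rw [Xn_eq hb]
    linarith
  obtain ⟨h6, -, h7⟩ := botA_col hb hn h5 h1
  have h8 := thick_n hb hd hn
  rw [h6] at h7
  have : (0 : ℤ) ≤ ci b (2 * h) x := by positivity
  have h9 : (b.H : ℤ) * (2 * h) ≤ ((b.H : ℤ) + ci b (2 * h) x) * (2 * h) := by nlinarith
  have hX1 := X1 hb
  have hXn : 0 < (b.X : ℤ) * (2 * h) := by positivity
  exact ⟨⟨h5, by omega⟩, by linarith, by linarith⟩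

/-- `m` plates of `P` are plates of the box if `P` is shorter than the slit -/
lemma m_le (hb : b.Ok δ σ) (hs : σ ≤ 1) (hd : δ ≤ 1) : b.m ≤ nP b := by
  have h1 := hb.len
  have h2 := hb.X_ge
  have hM := M_pos hb
  have hH := H_pos hb
  have h3 := X_eq hb
  have h4 : (b.X : ℝ) = nP b * b.M := by exact_mod_cast h3
  have h5 : (b.m : ℝ) * b.M ≤ nP b * b.M := by
    rw [h1, ← h4]
    have h6 : (0 : ℝ) ≤ b.X := by positivity
    nlinarith
  have h6 : (b.m : ℝ) ≤ nP b := le_of_mul_le_mul_right h5 hM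
  exact_mod_cast h6

/-- the open labels of the layer -/
lemma lt_mem_Wl {cl : Cl} (hQ : ¬ InQ b n x y)
    (hx : -((b.X : ℤ) * n) - 3 ≤ x ∧ x ≤ (b.X : ℤ) * n + 2)
    (hy : -(((b.H : ℤ) + b.K) * n) - 3 ≤ y ∧ y ≤ ((b.H : ℤ) + b.K) * n + 2) :
    lt (x, y) ∈ Wl b n cl ↔ lcol b n cl x y = true := by
  classical
  unfold Wl
  rw [mem_image]
  constructor
  · rintro ⟨p, hp, he⟩
    rw [lt_inj he, mem_filter] at hp
    exact hp.2.2
  · intro h1
    refine ⟨(x, y), ?_, rfl⟩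
    rw [mem_filter, mem_product, mem_Icc, mem_Icc]
    exact ⟨⟨hx, hy⟩, hQ, h1⟩

lemma LayF_Wl {cl : Cl} : LayF b h (Wl b (2 * h) cl) := by
  classical
  intro x y h1
  unfold Wl at h1
  rw [mem_image] at h1
  obtain ⟨p, hp, he⟩ := h1
  rw [lt_inj he, mem_filter] at hp
  exact hp.2.1

/-! ### Colours `colM` -/

variable {M : Finset (Bool × ℕ)}

lemma par_succ (k : ℕ) : par (k + 1) = !par k := by
  unfold par
  rcases Nat.mod_two_eq_zero_or_one k with h | h
  · rw [h, show (k + 1) % 2 = 1 by omega]; rfl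
  · rw [h, show (k + 1) % 2 = 0 by omega]; rfl

lemma card_u (i : ℕ) : (M.filter fun c => c.1 = true ∧ c.2 < i + 1).card =
    (M.filter fun c => c.1 = true ∧ c.2 < i).card + if (true, i) ∈ M then 1 else 0 := by
  classical
  by_cases h : (true, i) ∈ M
  · rw [if_pos h]
    have e : (M.filter fun c => c.1 = true ∧ c.2 < i + 1) =
        insert (true, i) (M.filter fun c => c.1 = true ∧ c.2 < i) := by
      ext c
      rw [mem_insert, mem_filter, mem_filter]
      constructor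
      · rintro ⟨h1, h2, h3⟩
        rcases Nat.lt_succ_iff_lt_or_eq.1 h3 with h4 | h4
        · exact Or.inr ⟨h1, h2, h4⟩
        · exact Or.inl (Prod.ext h2 h4)
      · rintro (rfl | ⟨h1, h2, h3⟩)
        · exact ⟨h, rfl, Nat.lt_succ_self _⟩
        · exact ⟨h1, h2, by omega⟩
    rw [e, card_insert_of_notMem]
    rw [mem_filter]
    rintro ⟨-, -, h1⟩
    exact absurd h1 (lt_irrefl _)
  · rw [if_neg h, add_zero]
    congr 1
    apply filter_congr
    intro c hc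
    constructor
    · rintro ⟨h2, h3⟩
      refine ⟨h2, ?_⟩
      rcases Nat.lt_succ_iff_lt_or_eq.1 h3 with h4 | h4
      · exact h4
      · exact absurd (by rw [← h2, ← h4]; exact hc) h
    · rintro ⟨h2, h3⟩; exact ⟨h2, by omega⟩

lemma card_l (i : ℕ) : (M.filter fun c => c.1 = false ∧ i ≤ c.2).card =
    (M.filter fun c => c.1 = false ∧ i + 1 ≤ c.2).card + if (false, i) ∈ M then 1 else 0 := by
  classical
  by_cases h : (false, i) ∈ M
  · rw [if_pos h]
    have e : (M.filter fun c => c.1 = false ∧ i ≤ c.2) =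
        insert (false, i) (M.filter fun c => c.1 = false ∧ i + 1 ≤ c.2) := by
      ext c
      rw [mem_insert, mem_filter, mem_filter]
      constructor
      · rintro ⟨h1, h2, h3⟩
        rcases h3.lt_or_eq with h4 | h4
        · exact Or.inr ⟨h1, h2, h4⟩
        · exact Or.inl (Prod.ext h2 h4.symm)
      · rintro (rfl | ⟨h1, h2, h3⟩)
        · exact ⟨h, rfl, le_rfl⟩
        · exact ⟨h1, h2, by omega⟩
    rw [e, card_insert_of_notMem]
    rw [mem_filter]
    rintro ⟨-, -, h1⟩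
    simp at h1
  · rw [if_neg h, add_zero]
    congr 1
    apply filter_congr
    intro c hc
    constructor
    · rintro ⟨h2, h3⟩
      refine ⟨h2, ?_⟩
      rcases h3.lt_or_eq with h4 | h4
      · exact h4
      · exact absurd (by rw [← h2, h4]; exact hc) h
    · rintro ⟨h2, h3⟩; exact ⟨h2, by omega⟩

/-- **the colours change exactly at the marks** -/
theorem colM_step (base : Bool) (ex : Option ℤ) (s : Bool) (i : ℕ) :
    ((!s, i) : Bool × ℕ) ∉ M ↔ cu (colM base M ex) s (i + 1) = cu (colM base M ex) s i := by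
  unfold cu colM
  cases s
  · simp only [Bool.not_false, Bool.false_eq_true, if_false]
    rw [card_u]
    by_cases h : (true, i) ∈ M
    · simp [h, par_succ]
    · simp [h]
  · simp only [Bool.not_true, if_true]
    rw [card_l i]
    by_cases h : (false, i) ∈ M
    · simp [h, par_succ]
    · simp [h]

/-- the right wall near the ceiling (`s = false`) and the floor (`s = true`) -/
theorem colM_right (hM : ∀ c ∈ M, c.2 < b.K) (base : Bool) (ex : Option ℤ) (s : Bool) {y : ℤ}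
    (hex : ∀ r, ex = some r → if s then y < r else r ≤ y) :
    (colM base M ex).cr y = cu (colM base M ex) s b.K := by
  unfold cu colM
  cases s
  · simp only [Bool.false_eq_true, if_false]
    have e : (M.filter fun c => c.1 = true ∧ c.2 < b.K) = M.filter fun c => c.1 = true := by
      apply filter_congr
      intro c hc
      exact ⟨fun h => h.1, fun h => ⟨h, hM c hc⟩⟩
    rw [e]
    rcases ex with _ | r
    · simp
    · have := hex r rfl
      simp only [Bool.false_eq_true, if_false] at this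
      simp [not_lt.2 this]
  · simp only [if_true]
    have e : (M.filter fun c => c.1 = false ∧ b.K ≤ c.2) = ∅ := by
      apply filter_eq_empty_iff.2
      rintro c hc ⟨-, h⟩
      have := hM c hc
      omega
    rw [e]
    rcases ex with _ | r
    · simp [par]
    · have := hex r rfl
      simp only [if_true] at this
      simp [par, this]

end Pool.Agent.H28.W
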