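import Mathlib
import Pool.Agent.H28.W.JConf

/-! # C6, JRow: the banks of the junction worlds

`bankA_J` : bank of the slit, `bankB_J` : ceiling / floor, for the configurations `cJ b h o Fp L`.
`lim_row` : the error bound tends to `0`. -/

set_option autoImplicit false
open Finset

namespace Pool.Agent.H28.W

open Pool.Agent.H6.W Pool.Agent.H21.W Pool.Agent.H61.W Pool.Agent.H71.W
open Pool.Agent.H33.Q1 Pool.Agent.H50.W
open Pool.Agent.H92.W (τ Tch Wdw Wall Bank uB nB)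
open Pool.Agent.H58.W (up mem_up up_subset)

variable {b : JBox} {δ σ : ℝ} {h : ℕ} {n x y k R xs xe : ℤ} {s o : Bool} {Fp L F : Finset (ℤ × ℤ)}
  {D : Set (ℤ × ℤ)} {M : Finset (Bool × ℕ)} {u : ℤ × ℤ → ℤ × ℤ}

/-- in the windows the forced tiles are first row tiles -/
def RowF (s : Bool) (F : Finset (ℤ × ℤ)) (u : ℤ × ℤ → ℤ × ℤ) (xs xe R : ℤ) (bot : ℤ → ℤ) : Prop :=
  ∀ x k, Wdw xs xe R bot x k → Tch bot x k → τ s x k ∈ F → k = bot x ∧ u (τ s x k) = uB s (τ s x k)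

/-- **a bank of the slit in a junction world** -/
theorem bankA_J {Λ : Set (ℤ × ℤ)} (hb : b.Ok δ σ) (hd : δ ≤ 1) (hh : 0 < h)
    (hR : 2 * R + 2 ≤ 2 * (h : ℤ)) (hΛ : LamOK b (2 * h) M Λ)
    (hxs : -((b.X : ℤ) * (2 * h)) ≤ xs) (hxe : xe ≤ 0) (hM : ∀ c ∈ M, c.2 < b.K)
    (hF : PlF b h Fp) (hL : LayF b h L) (hrow : RowF s F u xs xe R (botA b (2 * h)))
    (hD : ∀ x k, Wdw xs xe R (botA b (2 * h)) x k → τ s x k ∉ D)
    (hFp : ∀ x k x' k', (-((b.X : ℤ) * (2 * h)) ≤ x ∧ x < 0) →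
      (-((b.X : ℤ) * (2 * h)) ≤ x' ∧ x' < 0) → pli b (2 * h) x = pli b (2 * h) x' →
      Wdw xs xe R (botA b (2 * h)) x k → Wdw xs xe R (botA b (2 * h)) x' k' →
      ((b.τ : ℤ) * (2 * h) - R ≤ k ∧ k < ((b.τ : ℤ) + pli b (2 * h) x) * (2 * h)) →
      ((b.τ : ℤ) * (2 * h) - R ≤ k' ∧ k' < ((b.τ : ℤ) + pli b (2 * h) x') * (2 * h)) →
      (τ s x k ∈ Fp ↔ τ s x' k' ∈ Fp))
    (hLl : ∀ k k', Wdw xs xe R (botA b (2 * h)) (-((b.X : ℤ) * (2 * h)) - 1) k →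
      Wdw xs xe R (botA b (2 * h)) (-((b.X : ℤ) * (2 * h)) - 1) k' →
      (0 ≤ k ∧ k < (b.H : ℤ) * (2 * h)) → (0 ≤ k' ∧ k' < (b.H : ℤ) * (2 * h)) →
      (τ s (-((b.X : ℤ) * (2 * h)) - 1) k ∈ L ↔ τ s (-((b.X : ℤ) * (2 * h)) - 1) k' ∈ L))
    (hm : b.m ≤ nP b) :
    Bank s Λ D (b.B h) (bk (2 * (h : ℤ)) (chn 0 b.M b.τ)) (cJ b h o Fp L) F u xs xe R
      (botA b (2 * h)) (pcA b (2 * h)) (fun _ _ => False) (JA b (2 * h)) := by
  have hn := n_pos hh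
  have hP := Pl_sub hb hd hh hm
  have ht' := tau_n hb hn
  refine bankA hb hd hn hR hΛ hxs hxe hM ⟨hD, ?_, hrow⟩ ?_ ?_
  · intro x k _ hr
    rw [τ_eq]
    exact natL_J hb hh hF hL ((InR_ys hb hn).2 hr)
  · intro x k x' k' hw hw' hx hx' hk hk' hp ω
    have h1 : -(((b.τ : ℤ) + pli b (2 * h) x) * (2 * h)) ≤ ys s k ∧
        ys s k < ((b.τ : ℤ) + pli b (2 * h) x) * (2 * h) := by
      unfold ys
      cases s <;> simp <;> constructor <;> linarith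
    have h2 : -(((b.τ : ℤ) + pli b (2 * h) x') * (2 * h)) ≤ ys s k' ∧
        ys s k' < ((b.τ : ℤ) + pli b (2 * h) x') * (2 * h) := by
      unfold ys
      cases s <;> simp <;> constructor <;> linarith
    have := hFp x k x' k' hx hx' hp hw hw' hk hk'
    rw [τ_eq, τ_eq] at this ⊢
    exact plate_J hb hh hL hx.2 hx'.2 hx.1 hx'.1 hp h1 h2 hd this ω
  · intro k k' hw hw' hk hk' ω
    have hQ : ∀ k, ¬ InQ b (2 * h) (-((b.X : ℤ) * (2 * h)) - 1) (ys s k) := by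
      intro k
      rw [InQ_tile hb hn]
      omega
    have := hLl k k' hw hw' hk hk'
    rw [τ_eq, τ_eq] at this ⊢
    rw [layer_J hh hF (up_subset _ _ _) hP (hQ k), layer_J hh hF (up_subset _ _ _) hP (hQ k'), this]

/-- **ceiling, floor in a junction world** -/
theorem bankB_J {Λ : Set (ℤ × ℤ)} (hb : b.Ok δ σ) (hd : δ ≤ 1) (hh : 0 < h)
    (hR : 2 * R + 2 ≤ 2 * (h : ℤ)) (hΛ : LamOK b (2 * h) M Λ)
    (hxs : -((b.X : ℤ) * (2 * h)) ≤ xs) (hxe : xe ≤ (b.X : ℤ) * (2 * h)) (hM : ∀ c ∈ M, c.2 < b.K)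
    (hF : PlF b h Fp) (hL : LayF b h L) (hrow : RowF s F u xs xe R (botB b (2 * h)))
    (hD : ∀ x k, Wdw xs xe R (botB b (2 * h)) x k → τ s x k ∉ D) {base : Bool} {ex : Option ℤ}
    (hLc : ∀ x k, Wdw xs xe (R + 1) (botB b (2 * h)) x k → ¬ InQ b (2 * h) x k →
      Tch (botB b (2 * h)) x k → (τ s x k ∈ L ↔ lcol b (2 * h) (colM base M ex) x (ys s k) = true))
    (hex : ∀ r, ex = some r → -(((b.H : ℤ) + b.K) * (2 * h)) + R < r ∧
      r < ((b.H : ℤ) + b.K) * (2 * h) - R)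
    (hm : b.m ≤ nP b) :
    Bank s Λ D (b.B h) (bk (2 * (h : ℤ)) (chn 0 b.M b.τ)) (cJ b h o Fp L) F u xs xe R
      (botB b (2 * h)) (pcB b (2 * h) M s) (HlB b (2 * h) M s) (JB b (2 * h)) := by
  have hn := n_pos hh
  have hP := Pl_sub hb hd hh hm
  have hH := H1 hb
  have hHn : 2 * (h : ℤ) ≤ (b.H : ℤ) * (2 * h) := by nlinarith
  refine bankB hb hd hn hR hΛ hxs hxe hM ⟨hD, ?_, hrow⟩ (cu (colM base M ex) s)
    (fun i _ => colM_step base ex s i) ?_ ?_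
  · intro x k _ hr
    rw [τ_eq]
    exact natL_J hb hh hF hL ((InR_ys hb hn).2 hr)
  · intro x k hw hQ ht hx hK ω
    have h1 := hLc x k hw hQ ht
    have hneg : k < 0 := by
      obtain ⟨x0, k1, k2, k3, k4⟩ := hw
      have k5 := (botB_col hb hn (hxs.trans k1) (k2.trans_le hxe)).2
      rw [abs_le] at k4
      omega
    have hQ' : ¬ InQ b (2 * h) x (ys s k) := fun h => hQ ((InQ_ys hb hn).1 h)
    rw [τ_eq] at h1 ⊢
    rw [layer_J hh hF (up_subset _ _ _) hP hQ', h1, lcol_B hx hneg, min_eq_right hK]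
  · intro k hw hQ ht hk ω
    have h1 := hLc _ k (Wdw_succ hw) hQ ht
    have hQ' : ¬ InQ b (2 * h) ((b.X : ℤ) * (2 * h)) (ys s k) := fun h => hQ ((InQ_ys hb hn).1 h)
    rw [τ_eq] at h1 ⊢
    rw [layer_J hh hF (up_subset _ _ _) hP hQ', h1]
    unfold lcol
    rw [if_pos le_rfl, colM_right hM]
    intro r hr
    obtain ⟨h2, h3⟩ := hex r hr
    rw [abs_le] at hk
    unfold ys
    cases s <;> simp <;> linarith

/-- **the error tends to `0`** -/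
theorem lim_row {C δ0 κ η : ℝ} (hδ0 : 0 < δ0) (hδ1 : δ0 < 1) (hκ : 0 < κ) (hη : 0 < η) (N : ℕ)
    (X : ℝ) (hX : 0 ≤ X) (hC : 0 ≤ C) : ∃ h0 : ℕ, ∀ h : ℕ, h0 ≤ h → ∃ (r : ℕ) (k : ℕ), 1 ≤ r ∧
      16 * 4 ^ k * (r : ℝ) ≤ κ * h - 1 ∧
      C * N / r + C * (X * h) / (κ * h - 1) ^ 2 + 4 * N * (1 - δ0) ^ k ≤ η := by
  obtain ⟨r, hr⟩ := exists_nat_gt (max 1 (C * N / (η / 3)))
  have hr1 : (1 : ℝ) < r := (le_max_left _ _).trans_lt hr
  have hr2 : C * N / r ≤ η / 3 := by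
    rw [div_le_iff₀ (by linarith)]
    have := (le_max_right _ _).trans_lt hr
    rw [div_lt_iff₀ (by linarith)] at this
    nlinarith
  obtain ⟨k, hk⟩ : ∃ k : ℕ, 4 * N * (1 - δ0) ^ k ≤ η / 3 := by
    have h1 : Filter.Tendsto (fun k : ℕ => 4 * (N : ℝ) * (1 - δ0) ^ k) Filter.atTop (nhds (4 * N * 0)) :=
      (tendsto_pow_atTop_nhds_zero_of_lt_one (by linarith) (by linarith)).const_mul _
    rw [mul_zero] at h1
    have := h1.eventually (gt_mem_nhds (show (0 : ℝ) < η / 3 by linarith))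
    obtain ⟨k, hk⟩ := this.exists
    exact ⟨k, hk.le⟩
  obtain ⟨h0, hh0⟩ := exists_nat_gt (max (2 / κ) (max ((16 * 4 ^ k * r + 1) / κ)
    (4 * (C * X) / (κ ^ 2 * (η / 3)))))
  refine ⟨h0, fun h hh => ⟨r, k, by exact_mod_cast hr1.le, ?_, ?_⟩⟩
  · have h1 : (16 * 4 ^ k * r + 1) / κ < h :=
      ((le_max_left _ _).trans (le_max_right _ _)).trans_lt (hh0.trans_le (by exact_mod_cast hh))
    rw [div_lt_iff₀ hκ] at h1
    linarith
  · have h1 : 2 / κ < h := (le_max_left _ _).trans_lt (hh0.trans_le (by exact_mod_cast hh))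
    have h2 : 4 * (C * X) / (κ ^ 2 * (η / 3)) < h :=
      ((le_max_right _ _).trans (le_max_right _ _)).trans_lt (hh0.trans_le (by exact_mod_cast hh))
    rw [div_lt_iff₀ hκ] at h1
    rw [div_lt_iff₀ (by positivity)] at h2
    have hpos : (0 : ℝ) < h := by
      by_contra h3
      have : (h : ℝ) * κ ≤ 0 := mul_nonpos_of_nonpos_of_nonneg (not_lt.1 h3) hκ.le
      linarith
    have h3 : κ * h / 2 ≤ κ * h - 1 := by linarith
    have h4 : C * (X * h) / (κ * h - 1) ^ 2 ≤ η / 3 := by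
      rw [div_le_iff₀ (by
        have : 0 < κ * h - 1 := by nlinarith
        positivity)]
      have h5 : (κ * h / 2) ^ 2 ≤ (κ * h - 1) ^ 2 :=
        pow_le_pow_left₀ (by positivity) h3 2
      have h6 : C * (X * h) ≤ η / 3 * (κ * h / 2) ^ 2 := by
        have h7 : C * X * 4 ≤ κ ^ 2 * (η / 3) * h := by linarith
        nlinarith
      exact h6.trans (mul_le_mul_of_nonneg_left h5 (by linarith))
    linarith

end Pool.Agent.H28.W
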