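import Mathlib
import Pool.Agent.H28.W.JRow0
import Pool.Agent.H87.W.JForce
import Pool.Agent.H35.W.Force

/-! # C6, JRow: the forced rows

`FA s b n xs xe` : first row of the room along the bank of the slit (`s = true` : upper bank), columns
`xs ≤ x < xe`; `FBw s b n xs xe` : last row of the room at the floor (`s = true`), ceiling (`s = false`).
`force_eq` : 87's forced configuration. -/

set_option autoImplicit false
open Finset

namespace Pool.Agent.H28.W

open Pool.Agent.H6.W Pool.Agent.H21.W Pool.Agent.H61.W Pool.Agent.H71.W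
open Pool.Agent.H33.Q1 Pool.Agent.H50.W
open Pool.Agent.H92.W (τ Tch Wdw Wall Bank uB nB τ_inj τ_pred)
open Pool.Agent.H58.W (up_subset)
open Pool.Agent.H35.W (Force mem_Force)

variable {b : JBox} {δ σ : ℝ} {h : ℕ} {n x y k R xs xe : ℤ} {s o : Bool} {Fp L w : Finset (ℤ × ℤ)}
  {M : Finset (Bool × ℕ)}

/-- first row of the room along a bank of the slit -/
noncomputable def FA (s : Bool) (b : JBox) (n xs xe : ℤ) : Finset (ℤ × ℤ) :=
  (Ico xs xe).image fun x => τ s x (botA b n x)

/-- last row of the room at the floor / ceiling -/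
noncomputable def FBw (s : Bool) (b : JBox) (n xs xe : ℤ) : Finset (ℤ × ℤ) :=
  (Ico xs xe).image fun x => τ s x (botB b n x)

lemma mem_FA : τ s x k ∈ FA s b n xs xe ↔ (xs ≤ x ∧ x < xe) ∧ k = botA b n x := by
  unfold FA
  rw [mem_image]
  constructor
  · rintro ⟨x', h1, h2⟩
    obtain ⟨rfl, rfl⟩ := τ_inj h2
    exact ⟨mem_Ico.1 h1, rfl⟩
  · rintro ⟨h1, rfl⟩
    exact ⟨x, mem_Ico.2 h1, rfl⟩

lemma mem_FBw : τ s x k ∈ FBw s b n xs xe ↔ (xs ≤ x ∧ x < xe) ∧ k = botB b n x := by
  unfold FBw
  rw [mem_image]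
  constructor
  · rintro ⟨x', h1, h2⟩
    obtain ⟨rfl, rfl⟩ := τ_inj h2
    exact ⟨mem_Ico.1 h1, rfl⟩
  · rintro ⟨h1, rfl⟩
    exact ⟨x, mem_Ico.2 h1, rfl⟩

lemma rowF_A : RowF s (FA s b n xs xe) (uB s) xs xe R (botA b n) :=
  fun _ _ _ _ h => ⟨(mem_FA.1 h).2, rfl⟩

lemma rowF_B : RowF s (FBw s b n xs xe) (uB s) xs xe R (botB b n) :=
  fun _ _ _ _ h => ⟨(mem_FBw.1 h).2, rfl⟩

/-- 87's row -/
lemma fr_iff (hb : b.Ok δ σ) (hn : 0 < n) {i : ℕ} (hi : i < b.K) :
    Pool.Agent.H87.W.fr b n (!s, i) x (ys s k) ↔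
      (b.st i * n ≤ x ∧ x < (b.X : ℤ) * n) ∧ k = botB b n x := by
  have hst := st_bd hb hn hi
  have hH := H1 hb
  have hHn : n ≤ (b.H : ℤ) * n := by nlinarith
  unfold Pool.Agent.H87.W.fr
  rw [InQ_ys hb hn, InQ_tile hb hn]
  simp only
  constructor
  · rintro ⟨⟨⟨h1, h2⟩, h3, h4⟩, h5, h6⟩
    obtain ⟨e1, e2⟩ := botB_col hb hn h1 h2
    refine ⟨⟨h5, h2⟩, ?_⟩
    rw [e1]
    have key : k < 0 ∧ ¬ InQ b n x (k - 1) := by
      cases s
      · simp only [Bool.not_false, if_true] at h6
        have e3 : ys false k + 1 = ys false (k - 1) := by unfold ys; simp; ring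
        rw [e3, InQ_ys hb hn] at h6
        refine ⟨?_, h6.2⟩
        have := h6.1
        unfold ys at this
        simp at this
        omega
      · simp only [Bool.not_true, Bool.false_eq_true, if_false] at h6
        have e3 : ys true k = k := by unfold ys; simp
        rw [e3] at h6
        exact h6
    by_contra h7
    apply key.2
    rw [InQ_tile hb hn]
    exact ⟨⟨h1, h2⟩, by omega, by omega⟩
  · rintro ⟨⟨h1, h2⟩, h3⟩
    obtain ⟨e1, e2⟩ := botB_col hb hn (x := x) (by linarith) h2
    have hneg : k < 0 := by linarith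
    have hci : (0 : ℤ) ≤ ci b n x := by positivity
    have h7 : 0 < ((b.H : ℤ) + ci b n x) * n := by nlinarith
    refine ⟨⟨⟨by linarith, h2⟩, by rw [h3, e1], by linarith⟩, h1, ?_⟩
    have key : ¬ InQ b n x (k - 1) := by
      rw [InQ_tile hb hn]
      rintro ⟨-, h8, -⟩
      rw [h3, e1] at h8
      omega
    cases s
    · simp only [Bool.not_false, if_true]
      have e3 : ys false k + 1 = ys false (k - 1) := by unfold ys; simp; ring
      rw [e3, InQ_ys hb hn]
      refine ⟨?_, key⟩
      unfold ys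
      simp
      omega
    · simp only [Bool.not_true, Bool.false_eq_true, if_false]
      have e3 : ys true k = k := by unfold ys; simp
      rw [e3]
      exact ⟨hneg, key⟩

/-- every label is a tile in the heights of the side `s` -/
lemma exists_ys (s : Bool) (y : ℤ) : ∃ k, y = ys s k := ⟨ys s y, ys_ys.symm⟩

/-- **87's forced configuration** -/
theorem force_eq (hb : b.Ok δ σ) (hh : 0 < h) {i : ℕ} (hi : i < b.K) {cl : Cl} (hw : w ⊆ b.B h) :
    Pool.Agent.H87.W.force b h (!s, i) cl w ∪ Wl b (2 * h) cl =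
      Force (FBw s b (2 * h) (b.st i * (2 * h)) ((b.X : ℤ) * (2 * h))) (uB s)
        (w ∪ Wl b (2 * h) cl) := by
  classical
  have hn := n_pos hh
  have hst := st_bd hb hn hi
  have hX := X1 hb
  ext e
  by_cases ho : (e.1 + e.2) % 2 = 1
  · rw [← lt_tt ho]
    generalize tt e = t
    obtain ⟨x, y⟩ := t
    obtain ⟨k, rfl⟩ := exists_ys s y
    rw [mem_union, Pool.Agent.H87.W.mem_force hh, mem_Force]
    have e1 : lt (x, ys s k) ∈ FBw s b (2 * h) (b.st i * (2 * h)) ((b.X : ℤ) * (2 * h)) ↔
        Pool.Agent.H87.W.fr b (2 * h) (!s, i) x (ys s k) := by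
      rw [fr_iff hb hn hi, ← τ_eq, mem_FBw]
    rw [e1]
    by_cases hfr : Pool.Agent.H87.W.fr b (2 * h) (!s, i) x (ys s k)
    · have hfr' := (fr_iff hb hn hi).1 hfr
      obtain ⟨⟨h1, h2⟩, h3⟩ := hfr'
      obtain ⟨e2, e3⟩ := botB_col hb hn (x := x) (by linarith) h2
      have hQ : InQ b (2 * h) x (ys s k) := hfr.1
      have hQ' : ¬ InQ b (2 * h) x (ys s (k - 1)) := by
        rw [InQ_ys hb hn, InQ_tile hb hn]
        rintro ⟨-, h8, -⟩
        rw [h3, e2] at h8
        omega
      have h4 : lt (x, ys s k) ∉ Wl b (2 * h) cl := fun h => LayF_Wl x _ h hQ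
      have h5 : uB s (lt (x, ys s k)) = lt (x, ys s (k - 1)) := by
        rw [← τ_eq, ← τ_pred]; rfl
      have h6 : lt (x, ys s (k - 1)) ∉ w := fun h => hQ' ((lt_mem_B hh).1 (hw h))
      have h7 : lt (x, ys s (k - 1)) ∈ Wl b (2 * h) cl ↔
          lcol b (2 * h) cl x (ys s (k - 1)) = true := by
        have hci : (ci b (2 * h) x : ℤ) ≤ b.K := by exact_mod_cast ci_le
        have h8 : ((b.H : ℤ) + ci b (2 * h) x) * (2 * h) ≤ ((b.H : ℤ) + b.K) * (2 * h) :=
          mul_le_mul_of_nonneg_right (by omega) hn.le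
        have hci0 : (0 : ℤ) ≤ ci b (2 * h) x := by positivity
        have h9 : 0 ≤ ((b.H : ℤ) + ci b (2 * h) x) * (2 * h) := by positivity
        refine lt_mem_Wl hQ' ⟨by linarith, by linarith⟩ ?_
        unfold ys
        cases s
        · simp only [Bool.false_eq_true, if_false]
          rw [h3, e2]
          constructor <;> linarith
        · simp only [if_true]
          rw [h3, e2]
          constructor <;> linarith
      have h8 : Pool.Agent.H87.W.frc b (2 * h) (!s, i) cl x (ys s k) =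
          lcol b (2 * h) cl x (ys s (k - 1)) := by
        unfold Pool.Agent.H87.W.frc ys
        cases s
        · simp only [Bool.not_false, if_true, Bool.false_eq_true, if_false]
          congr 1
          ring
        · simp
      rw [h5, mem_union, mem_union, h7, h8]
      simp only [hfr, h4, h6, not_true_eq_false, false_and, or_false, true_and, false_or]
    · rw [mem_union]
      simp only [hfr, not_false_eq_true, false_and, or_false, true_and, false_or]
  · have h1 : e ∉ Wl b (2 * h) cl := by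
      intro h1
      unfold Wl at h1
      rw [mem_image] at h1
      obtain ⟨p, -, rfl⟩ := h1
      exact ho (lt_odd p)
    have h2 : e ∉ w := fun h2 => ho ((mem_B' hh).1 (hw h2)).1
    have h3 : e ∉ FBw s b (2 * h) (b.st i * (2 * h)) ((b.X : ℤ) * (2 * h)) := by
      intro h3
      unfold FBw at h3
      rw [mem_image] at h3
      obtain ⟨p, -, rfl⟩ := h3
      exact ho (lt_odd _)
    have h4 : e ∉ Pool.Agent.H87.W.force b h (!s, i) cl w := by
      intro h4
      unfold Pool.Agent.H87.W.force at h4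
      rw [mem_union, mem_filter, mem_filter] at h4
      rcases h4 with h4 | h4
      · exact h2 h4.1
      · exact ho ((mem_B' hh).1 h4.1).1
    rw [mem_union, mem_Force, mem_union]
    simp only [h1, h2, h3, h4, or_self, and_false, false_and]

end Pool.Agent.H28.W
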