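import Mathlib
import Pool.Agent.H28.W.JRowF
import Pool.Agent.H92.W.OneRowE

/-! # C6, JRow: the forced rows of the junction box

`ChgR Λ D w w'` : some connection between ends of the world is different in `w` and `w'`. `row_slit` : first row
of the room along a bank of the slit, `row_wall` : last row of the room at the ceiling / floor: forcing the row
to the colour of the wall changes a connection with probability `≤ ε`, for a fixed box and `h ≥ h0`. -/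

set_option autoImplicit false
open Finset

namespace Pool.Agent.H28.W

open Pool.Agent.H6.W Pool.Agent.H21.W Pool.Agent.H61.W Pool.Agent.H71.W Pool.Agent.H13.W
open Pool.Agent.H33.Q1 Pool.Agent.H50.W
open Pool.Agent.H92.W (τ Tch Wdw Wall Bank uB nB τ_inj τ_pred OutC patInv_SG one_rows_eps PatInv)
open Pool.Agent.H58.W (PB PB_mono PB_nonneg PB_and_add up_subset)
open Pool.Agent.H35.W (Force mem_Force)

/-- some connection between ends changes -/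
def ChgR (Λ D : Set (ℤ × ℤ)) (w w' : Finset (ℤ × ℤ)) : Prop :=
  ¬ ∀ p q, OutC Λ D p → OutC Λ D q → ((SG Λ D w).Reachable p q ↔ (SG Λ D w').Reachable p q)

/-- one bank, qualitative form -/
theorem row_bank (m : ℕ) (A : ℝ) {ε : ℝ} (hε : 0 < ε) : ∃ R0 : ℤ, ∀ {γ : Type} [DecidableEq γ]
    {Λ D : Set (ℤ × ℤ)} {E F : Finset (ℤ × ℤ)} {b : ℤ × ℤ → γ}
    {c : Finset (ℤ × ℤ) → Finset (ℤ × ℤ)} {u : ℤ × ℤ → ℤ × ℤ} (s : Bool) (xs xe R : ℤ)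
    (bot pc : ℤ → ℤ) (Hl : ℤ → ℤ → Prop) (J : Finset ℤ),
    Bank s Λ D E b c F u xs xe R bot pc Hl J → R0 ≤ R → J.card ≤ m →
    ((xe - xs).toNat : ℝ) ≤ A * R → (∀ f ∈ F, ∃ x, (xs ≤ x ∧ x < xe) ∧ τ s x (bot x) = f) →
    PB E b (fun ω => ChgR Λ D (Force F u (c ω)) (c ω)) ≤ ε := by
  obtain ⟨R0, h⟩ := one_rows_eps 1 m A hε
  refine ⟨R0, ?_⟩
  intro γ _ Λ D E F b c u s xs xe R bot pc Hl J hB hR hJ hx hF
  have h1 := h (Φ := fun w (i j : {p // OutC Λ D p}) => (SG Λ D w).Reachable i.1 j.1)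
    ({()} : Finset Unit) (fun _ => s) (fun _ => xs) (fun _ => xe) (fun _ => R) (fun _ => bot)
    (fun _ => pc) (fun _ => Hl) (fun _ => J) (by simp) (fun _ _ => hB) (fun _ _ => ⟨hR, hJ, hx⟩)
    (fun f hf => ⟨(), by simp, hF f hf⟩)
    (fun Z hZ => patInv_SG (fun i : {p // OutC Λ D p} => i.1) hZ fun i => i.2.outer hZ)
  refine le_trans (PB_mono ?_) h1
  intro ω _ h2 h3
  apply h2
  intro p q hp hq
  have := congrFun (congrFun h3 ⟨p, hp⟩) ⟨q, hq⟩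
  simp only at this
  rw [this]

variable {b : JBox} {δ σ : ℝ} {s o : Bool}

/-- the radius of the windows -/
noncomputable def Rk (κ : ℝ) (h : ℕ) : ℤ := ⌊κ * h⌋

lemma Rk_le {κ : ℝ} (hκ2 : κ ≤ 1 / 2) {h : ℕ} : 2 * Rk κ h ≤ h := by
  have h1 : (Rk κ h : ℝ) ≤ κ * h := Int.floor_le _
  have h2 : κ * (h : ℝ) ≤ 1 / 2 * h := mul_le_mul_of_nonneg_right hκ2 (by positivity)
  have h3 : 2 * (Rk κ h : ℝ) ≤ h := by linarith
  exact_mod_cast h3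

/-- numbers -/
lemma numbers {κ : ℝ} (hκ : 0 < κ) (R0 : ℤ) (X : ℕ) : ∃ h0 : ℕ, ∀ h : ℕ, h0 ≤ h → 2 ≤ h ∧
    R0 ≤ Rk κ h ∧ (4 * X * h : ℝ) ≤ 8 * X / κ * Rk κ h := by
  obtain ⟨h0, hh0⟩ := exists_nat_gt (max (2 / κ) (((R0 : ℝ) + 1) / κ))
  refine ⟨max h0 2, fun h hh => ?_⟩
  have hh1 : h0 ≤ h := (le_max_left _ _).trans hh
  have h1 : 2 / κ < h := (le_max_left _ _).trans_lt (hh0.trans_le (by exact_mod_cast hh1))
  have h2 : ((R0 : ℝ) + 1) / κ < h := (le_max_right _ _).trans_lt (hh0.trans_le (by exact_mod_cast hh1))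
  rw [div_lt_iff₀ hκ] at h1 h2
  have h3 : κ * h < Rk κ h + 1 := Int.lt_floor_add_one _
  refine ⟨(le_max_right _ _).trans hh, ?_, ?_⟩
  · have : (R0 : ℝ) < Rk κ h := by linarith
    have : R0 < Rk κ h := by exact_mod_cast this
    exact this.le
  · have h4 : κ * h / 2 ≤ Rk κ h := by linarith
    have h5 : (0 : ℝ) ≤ 8 * X / κ := by positivity
    calc (4 * X * h : ℝ) = 8 * X / κ * (κ * h / 2) := by field_simp; ring
      _ ≤ 8 * X / κ * Rk κ h := mul_le_mul_of_nonneg_left h4 h5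

/-- **The forced row along a bank of the slit.** -/
theorem row_slit (hb : b.Ok δ σ) (hd : δ ≤ 1) (hσ : σ ≤ 1) {κ : ℝ} (hκ : 0 < κ) (hκ2 : κ ≤ 1 / 2)
    {ε : ℝ} (hε : 0 < ε) : ∃ h0 : ℕ, ∀ h : ℕ, h0 ≤ h → ∀ (s o : Bool) (xs xe : ℤ)
    (M : Finset (Bool × ℕ)) (Λ D : Set (ℤ × ℤ)) (Fp L : Finset (ℤ × ℤ)),
    -((b.X : ℤ) * (2 * h)) ≤ xs → xe ≤ 0 → (∀ c ∈ M, c.2 < b.K) → LamOK b (2 * h) M Λ →
    PlF b h Fp → LayF b h L →
    (∀ x k, Wdw xs xe (Rk κ h) (botA b (2 * h)) x k → τ s x k ∉ D) →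
    (∀ x k x' k', (-((b.X : ℤ) * (2 * h)) ≤ x ∧ x < 0) →
      (-((b.X : ℤ) * (2 * h)) ≤ x' ∧ x' < 0) → pli b (2 * h) x = pli b (2 * h) x' →
      Wdw xs xe (Rk κ h) (botA b (2 * h)) x k → Wdw xs xe (Rk κ h) (botA b (2 * h)) x' k' →
      ((b.τ : ℤ) * (2 * h) - Rk κ h ≤ k ∧ k < ((b.τ : ℤ) + pli b (2 * h) x) * (2 * h)) →
      ((b.τ : ℤ) * (2 * h) - Rk κ h ≤ k' ∧ k' < ((b.τ : ℤ) + pli b (2 * h) x') * (2 * h)) →
      (τ s x k ∈ Fp ↔ τ s x' k' ∈ Fp)) →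
    (∀ k k', Wdw xs xe (Rk κ h) (botA b (2 * h)) (-((b.X : ℤ) * (2 * h)) - 1) k →
      Wdw xs xe (Rk κ h) (botA b (2 * h)) (-((b.X : ℤ) * (2 * h)) - 1) k' →
      (0 ≤ k ∧ k < (b.H : ℤ) * (2 * h)) → (0 ≤ k' ∧ k' < (b.H : ℤ) * (2 * h)) →
      (τ s (-((b.X : ℤ) * (2 * h)) - 1) k ∈ L ↔ τ s (-((b.X : ℤ) * (2 * h)) - 1) k' ∈ L)) →
    b.PJ h (fun ω => ChgR Λ D (Force (FA s b (2 * h) xs xe) (uB s) (cJ b h o Fp L ω))
      (cJ b h o Fp L ω)) ≤ ε := by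
  obtain ⟨R0, hR0⟩ := row_bank (nP b + 1) (8 * b.X / κ) hε
  obtain ⟨h0, hh0⟩ := numbers hκ R0 b.X
  refine ⟨h0, fun h hh s o xs xe M Λ D Fp L hxs hxe hM hΛ hF hL hD hFp hLl => ?_⟩
  obtain ⟨n1, n2, n3⟩ := hh0 h hh
  have hpos : 0 < h := by omega
  have hRk := Rk_le (h := h) hκ2
  have B := bankA_J (o := o) hb hd hpos (R := Rk κ h) (by omega) hΛ hxs hxe hM hF hL
    (rowF_A (s := s)) hD hFp hLl (m_le hb hσ hd)
  refine hR0 s xs xe _ _ _ _ _ B n2 card_JA ?_ ?_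
  · refine le_trans ?_ n3
    have h1 : ((xe - xs).toNat : ℤ) ≤ 4 * b.X * h := by
      have k1 : (0 : ℤ) ≤ b.X * h := by positivity
      rw [Int.toNat_eq_max]
      exact max_le (by nlinarith) (by nlinarith)
    exact_mod_cast h1
  · intro f hf
    unfold FA at hf
    rw [mem_image] at hf
    obtain ⟨x, h1, h2⟩ := hf
    exact ⟨x, mem_Ico.1 h1, h2⟩

/-- **The forced row at the ceiling / floor.** -/
theorem row_wall (hb : b.Ok δ σ) (hd : δ ≤ 1) (hσ : σ ≤ 1) {κ : ℝ} (hκ : 0 < κ) (hκ2 : κ ≤ 1 / 2)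
    {ε : ℝ} (hε : 0 < ε) : ∃ h0 : ℕ, ∀ h : ℕ, h0 ≤ h → ∀ (s o : Bool) (xs xe : ℤ)
    (M : Finset (Bool × ℕ)) (Λ D : Set (ℤ × ℤ)) (Fp L : Finset (ℤ × ℤ)) (base : Bool) (ex : Option ℤ),
    -((b.X : ℤ) * (2 * h)) ≤ xs → xe ≤ (b.X : ℤ) * (2 * h) → (∀ c ∈ M, c.2 < b.K) →
    LamOK b (2 * h) M Λ → PlF b h Fp → LayF b h L →
    (∀ x k, Wdw xs xe (Rk κ h) (botB b (2 * h)) x k → τ s x k ∉ D) →
    (∀ x k, Wdw xs xe (Rk κ h + 1) (botB b (2 * h)) x k → ¬ InQ b (2 * h) x k →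
      Tch (botB b (2 * h)) x k → (τ s x k ∈ L ↔ lcol b (2 * h) (colM base M ex) x (ys s k) = true)) →
    (∀ r, ex = some r → -(((b.H : ℤ) + b.K) * (2 * h)) + Rk κ h < r ∧
      r < ((b.H : ℤ) + b.K) * (2 * h) - Rk κ h) →
    b.PJ h (fun ω => ChgR Λ D (Force (FBw s b (2 * h) xs xe) (uB s) (cJ b h o Fp L ω))
      (cJ b h o Fp L ω)) ≤ ε := by
  obtain ⟨R0, hR0⟩ := row_bank (b.K + 2) (8 * b.X / κ) hε
  obtain ⟨h0, hh0⟩ := numbers hκ R0 b.X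
  refine ⟨h0, fun h hh s o xs xe M Λ D Fp L base ex hxs hxe hM hΛ hF hL hD hLc hex => ?_⟩
  obtain ⟨n1, n2, n3⟩ := hh0 h hh
  have hpos : 0 < h := by omega
  have hRk := Rk_le (h := h) hκ2
  have B := bankB_J (o := o) hb hd hpos (R := Rk κ h) (by omega) hΛ hxs hxe hM hF hL
    (rowF_B (s := s)) hD hLc hex (m_le hb hσ hd)
  refine hR0 s xs xe _ _ _ _ _ B n2 card_JB ?_ ?_
  · refine le_trans ?_ n3
    have h1 : ((xe - xs).toNat : ℤ) ≤ 4 * b.X * h := by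
      have k1 : (0 : ℤ) ≤ b.X * h := by positivity
      rw [Int.toNat_eq_max]
      exact max_le (by nlinarith) (by nlinarith)
    exact_mod_cast h1
  · intro f hf
    unfold FBw at hf
    rw [mem_image] at hf
    obtain ⟨x, h1, h2⟩ := hf
    exact ⟨x, mem_Ico.1 h1, h2⟩

/-! ### Ends -/

lemma outC_side {Λ D : Set (ℤ × ℤ)} {e c : ℤ × ℤ} (he : e ∉ Λ ∨ e ∈ D) (ho : (e.1 + e.2) % 2 = 1)
    (hc : c = eW e ∨ c = eE e ∨ c = eS e ∨ c = eN e) : OutC Λ D c := by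
  rcases of_side ho c hc with h | h
  · left; rw [← h]; exact he
  · right; rw [← h]; exact he

/-- sides of a deleted tile -/
lemma outC_D {Λ D : Set (ℤ × ℤ)} {e c : ℤ × ℤ} (he : e ∈ D) (ho : (e.1 + e.2) % 2 = 1)
    (hc : c = eW e ∨ c = eE e ∨ c = eS e ∨ c = eN e) : OutC Λ D c := outC_side (Or.inr he) ho hc

lemma dgt_notLam (hb : b.Ok δ σ) {n : ℤ} (hn : 0 < n) {M : Finset (Bool × ℕ)} {q : Bool × ℕ}
    (hq : q ∈ M) (hK : q.2 < b.K) : lt (dgt b n q) ∉ Lam b n M := by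
  rintro ⟨x, y, he, h1⟩
  have h2 : (x, y) = dgt b n q := (lt_inj he).symm
  rcases h1 with h1 | h1
  · exact dgt_notQ hb hn hK h2 h1
  · exact h1.2 q hq h2

lemma dgt_notLamT {n : ℤ} {M : Finset (Bool × ℕ)} {q : Bool × ℕ}
    (hq : q ∈ M) : lt (dgt b n q) ∉ Pool.Agent.H73.W.LamT b n M := by
  rintro ⟨x, y, he, -, h1⟩
  exact h1 q hq (lt_inj he).symm

/-- the far ends at a mark -/
lemma outC_f {Λ D : Set (ℤ × ℤ)} {n : ℤ} {q : Bool × ℕ} (hq : lt (dgt b n q) ∉ Λ) :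
    OutC Λ D (f1 b n q) ∧ OutC Λ D (f2 b n q) := by
  refine ⟨outC_side (Or.inl hq) (lt_odd _) (Or.inr (Or.inl rfl)), outC_side (Or.inl hq) (lt_odd _) ?_⟩
  unfold f2
  split_ifs
  · exact Or.inr (Or.inr (Or.inl rfl))
  · exact Or.inr (Or.inr (Or.inr rfl))

/-- connection to a mark does not change off `ChgR` -/
lemma RF_of_chg {Λ D : Set (ℤ × ℤ)} {n : ℤ} {w w' : Finset (ℤ × ℤ)} {q : Bool × ℕ} {c : ℤ × ℤ}
    (hq : lt (dgt b n q) ∉ Λ) (hc : OutC Λ D c) (h : ¬ ChgR Λ D w w') :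
    RF b n (SG Λ D w) c q ↔ RF b n (SG Λ D w') c q := by
  unfold ChgR at h
  rw [not_not] at h
  obtain ⟨h1, h2⟩ := outC_f (b := b) (D := D) hq
  unfold RF
  rw [h c _ hc h1, h c _ hc h2]

/-- difference of probabilities -/
lemma PB_diff {γ : Type*} [DecidableEq γ] {E : Finset (ℤ × ℤ)} {bc : ℤ × ℤ → γ}
    {A A' C : Finset (ℤ × ℤ) → Prop} (h : ∀ ω ⊆ E, ¬ C ω → (A ω ↔ A' ω)) :
    |PB E bc A - PB E bc A'| ≤ PB E bc C := by
  have h1 := PB_and_add E bc A C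
  have h2 := PB_and_add E bc A' C
  have h3 : PB E bc (fun ω => A ω ∧ ¬ C ω) = PB E bc (fun ω => A' ω ∧ ¬ C ω) := by
    apply Pool.Agent.H58.W.PB_congr
    intro ω hω
    constructor
    · rintro ⟨k1, k2⟩; exact ⟨(h ω hω k2).1 k1, k2⟩
    · rintro ⟨k1, k2⟩; exact ⟨(h ω hω k2).2 k1, k2⟩
  have h4 : PB E bc (fun ω => A ω ∧ C ω) ≤ PB E bc C := PB_mono fun _ _ k => k.2
  have h5 : PB E bc (fun ω => A' ω ∧ C ω) ≤ PB E bc C := PB_mono fun _ _ k => k.2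
  have h6 := PB_nonneg E bc (fun ω => A ω ∧ C ω)
  have h7 := PB_nonneg E bc (fun ω => A' ω ∧ C ω)
  rw [abs_le]
  constructor <;> linarith

/-- the layer stays -/
lemma force_union {F L w : Finset (ℤ × ℤ)} {u : ℤ × ℤ → ℤ × ℤ} (h1 : ∀ e ∈ F, e ∉ L)
    (h2 : ∀ e ∈ F, u e ∉ L) : Force F u (w ∪ L) = Force F u w ∪ L := by
  ext e
  rw [mem_Force, mem_union, mem_union, mem_union, mem_Force]
  by_cases h : e ∈ F
  · have := h1 e h
    have := h2 e h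
    simp [*]
  · simp [h]

end Pool.Agent.H28.W
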