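import Mathlib
import Pool.Agent.H28.W.JRow
import Pool.Agent.H71.W.J6G

/-! # C6, JRow: instances

`row_J6` : 71's canonical world. -/

set_option autoImplicit false
open Finset

namespace Pool.Agent.H28.W

open Pool.Agent.H6.W Pool.Agent.H21.W Pool.Agent.H61.W Pool.Agent.H71.W Pool.Agent.H13.W
open Pool.Agent.H33.Q1 Pool.Agent.H50.W
open Pool.Agent.H92.W (τ Tch Wdw Wall Bank uB nB τ_inj τ_pred OutC)
open Pool.Agent.H58.W (PB PB_mono up_subset)
open Pool.Agent.H35.W (Force mem_Force)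
open Pool.Agent.H19.W (cx cy lt_cc cx_lt cy_lt)

variable {b : JBox} {δ σ : ℝ} {h : ℕ} {n x y k R xs xe : ℤ} {s o : Bool} {M : Finset (Bool × ℕ)}

lemma pin_eq_pli : pin b n x = pli b n x := rfl

/-- heights in the windows of a bank of the slit -/
lemma wdwA_low (hb : b.Ok δ σ) (hn : 0 < n) (hxs : -((b.X : ℤ) * n) ≤ xs) (hxe : xe ≤ 0)
    (hw : Wdw xs xe R (botA b n) x k) : (b.τ : ℤ) * n - R ≤ k := by
  obtain ⟨x0, h1, h2, h3, h4⟩ := hw
  obtain ⟨-, h5, -⟩ := botA_col hb hn (hxs.trans h1) (h2.trans_le hxe)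
  rw [abs_le] at h4
  linarith

lemma wdw_x {bot : ℤ → ℤ} (hw : Wdw xs xe R bot x k) : xs - R ≤ x ∧ x < xe + R := by
  obtain ⟨x0, h1, h2, h3, h4⟩ := hw
  rw [abs_le] at h3
  constructor <;> linarith

/-- heights in the windows of the ceiling / floor -/
lemma wdwB_high (hb : b.Ok δ σ) (hn : 0 < n) (hxs : -((b.X : ℤ) * n) ≤ xs)
    (hxe : xe ≤ (b.X : ℤ) * n) (hw : Wdw xs xe R (botB b n) x k) : k ≤ -((b.H : ℤ) * n) + R := by
  obtain ⟨x0, h1, h2, h3, h4⟩ := hw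
  obtain ⟨-, h5⟩ := botB_col hb hn (hxs.trans h1) (h2.trans_le hxe)
  rw [abs_le] at h4
  linarith

/-- colours of the left wall beside the slit -/
lemma left_Wl (hb : b.Ok δ σ) (hh : 0 < h) (cl : Cl) (hk : 0 ≤ k ∧ k < (b.H : ℤ) * (2 * h)) :
    τ s (-((b.X : ℤ) * (2 * h)) - 1) k ∈ Wl b (2 * h) cl ↔ cu cl (!s) 0 = true := by
  have hn := n_pos hh
  have hX := X1 hb
  have hXn : 0 < (b.X : ℤ) * (2 * h) := by positivity
  have hH : (b.H : ℤ) * (2 * h) ≤ ((b.H : ℤ) + b.K) * (2 * h) := by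
    have : (0 : ℤ) ≤ b.K := by positivity
    nlinarith
  rw [τ_eq, lt_mem_Wl, lcol_A (by omega) hk.1]
  · have h1 : k / (2 * (h : ℤ)) < b.H := (div_lt' hn).2 hk.2
    rw [show (k / (2 * (h : ℤ)) - b.H).toNat = 0 by omega]
    simp
  · rw [InQ_tile hb hn]
    omega
  · constructor <;> omega
  · unfold ys
    cases s
    · simp only [Bool.false_eq_true, if_false]
      constructor <;> omega
    · simp only [if_true]
      constructor <;> omega

/-- `x` is right of the gap `-k M n` iff its plate is one of the first `k` -/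
lemma gap_iff (hb : b.Ok δ σ) (hn : 0 < n) (hx : x < 0) {j : ℕ} :
    -((j : ℤ) * b.M * n) ≤ x ↔ pli b n x < j := by
  have hM : (0 : ℤ) < b.M := by exact_mod_cast hb.M0
  have h1 := pli_spec hb hn hx
  constructor
  · intro h2
    by_contra h3
    have h4 : (j : ℤ) ≤ pli b n x := by exact_mod_cast (not_lt.1 h3)
    have h5 : (j : ℤ) * b.M * n ≤ (pli b n x : ℤ) * b.M * n :=
      mul_le_mul_of_nonneg_right (mul_le_mul_of_nonneg_right h4 hM.le) hn.le
    linarith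
  · intro h2
    have h4 : (pli b n x : ℤ) + 1 ≤ j := by exact_mod_cast h2
    have h5 : ((pli b n x : ℤ) + 1) * b.M * n ≤ (j : ℤ) * b.M * n :=
      mul_le_mul_of_nonneg_right (mul_le_mul_of_nonneg_right h4 hM.le) hn.le
    linarith

/-- plate tiles in the box -/
lemma plate_Q (hb : b.Ok δ σ) (hd : δ ≤ 1) (hn : 0 < n) (h1 : x < 0) (h2 : -((b.X : ℤ) * n) ≤ x)
    (h3 : -(((b.τ : ℤ) + pli b n x) * n) ≤ y ∧ y ≤ ((b.τ : ℤ) + pli b n x) * n) : InQ b n x y := by
  rw [InQ_tile hb hn]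
  obtain ⟨h4, -, h5⟩ := botA_col hb hn h2 h1
  have h6 := thick_n hb hd hn
  have hX1 := X1 hb
  have hXn : 0 < (b.X : ℤ) * n := by positivity
  rw [h4] at h5
  have : (0 : ℤ) ≤ ci b n x := by positivity
  have h7 : (b.H : ℤ) * n ≤ ((b.H : ℤ) + ci b n x) * n := by nlinarith
  refine ⟨⟨h2, by omega⟩, by linarith, by linarith⟩

lemma uB_true (e : ℤ × ℤ) : uB true e = dn e := by
  unfold uB nB dn
  simp [Prod.ext_iff]

lemma uB_false (e : ℤ × ℤ) : uB false e = up e := by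
  unfold uB nB Pool.Agent.H13.W.up
  simp [Prod.ext_iff]

lemma odd_of_τ_image {t : Finset ℤ} {f : ℤ → ℤ} {e : ℤ × ℤ} (he : e ∈ t.image fun x => τ s x (f x)) :
    (e.1 + e.2) % 2 = 1 := by
  rw [mem_image] at he
  obtain ⟨x, -, rfl⟩ := he
  exact lt_odd _

/-- 71's row -/
lemma Fr_eq (hb : b.Ok δ σ) (hd : δ ≤ 1) (hh : 0 < h) (hxs : -((b.X : ℤ) * (2 * h)) ≤ xs) :
    Fr b h xs = FA true b (2 * h) xs 0 := by
  have hn := n_pos hh
  ext e
  by_cases ho : (e.1 + e.2) % 2 = 1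
  · rw [← lt_cc ho]
    generalize cx e = x
    generalize cy e = y
    rw [mem_Fr, cx_lt, cy_lt, lt_mem_B hh]
    have e1 : lt (x, y) = τ true x y := by rw [τ_eq]; simp [ys]
    rw [e1, mem_FA]
    constructor
    · rintro ⟨h1, h2, h3, h4⟩
      refine ⟨⟨h2, h3⟩, ?_⟩
      rw [(botA_col hb hn (hxs.trans h2) h3).1]
      exact h4
    · rintro ⟨⟨h1, h2⟩, h3⟩
      rw [(botA_col hb hn (hxs.trans h1) h2).1] at h3
      refine ⟨plate_Q hb hd hn h2 (hxs.trans h1) ⟨?_, h3.le⟩, h1, h2, h3⟩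
      rw [h3]
      have : 0 ≤ ((b.τ : ℤ) + pli b (2 * h) x) * (2 * h) := by positivity
      linarith
  · constructor
    · intro h1
      rw [mem_Fr, mem_B' hh] at h1
      exact absurd h1.1.1 ho
    · intro h1
      exact absurd (odd_of_τ_image h1) ho

/-- **71's forced row (J6).** -/
theorem row_J6 (hb : b.Ok δ σ) (hd : δ ≤ 1) (hσ : σ ≤ 1) {ε : ℝ} (hε : 0 < ε) : ∃ h0 : ℕ,
    ∀ h : ℕ, h0 ≤ h → ∀ (M : Finset (Bool × ℕ)) (bse o : Bool) (j : ℕ) (Yd xs : ℤ),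
    (∀ q ∈ M, q.2 < b.K) → j ≤ nP b → xs = -((j : ℤ) * b.M * (2 * h)) →
    Yd + h ≤ (b.τ : ℤ) * (2 * h) → ∀ q ∈ M,
    |b.PJ h (fun ω => RF b (2 * h) (G1 b h M bse o xs Yd ω) (zc (xs, Yd)) q) -
      b.PJ h (fun ω => RF b (2 * h) (G0 b h M bse o xs Yd ω) (zc (xs, Yd)) q)| ≤ ε := by
  obtain ⟨h0, hrow⟩ := row_slit hb hd hσ (κ := 1 / 2) (by norm_num) le_rfl hε
  refine ⟨max h0 2, fun h hh M bse o j Yd xs hM hj hxs hYd q hq => ?_⟩
  have hh1 : h0 ≤ h := (le_max_left _ _).trans hh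
  have hh2 : 2 ≤ h := (le_max_right _ _).trans hh
  have hpos : 0 < h := by omega
  have hn := n_pos hpos
  have hMp : (0 : ℤ) < b.M := by exact_mod_cast hb.M0
  have hR := Rk_le (κ := 1 / 2) le_rfl (h := h)
  have hXs : -((b.X : ℤ) * (2 * h)) ≤ xs := by
    have h4 : (j : ℤ) ≤ nP b := by exact_mod_cast hj
    have h5 : (j : ℤ) * b.M * (2 * h) ≤ (nP b : ℤ) * b.M * (2 * h) :=
      mul_le_mul_of_nonneg_right (mul_le_mul_of_nonneg_right h4 hMp.le) hn.le
    rw [Xn_eq hb, hxs]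
    linarith
  have h1 := hrow h hh1 true o xs 0 M (Lam b (2 * h) M) (lt '' strD (xs, Yd)) (fU b h xs Yd)
    (Wl b (2 * h) (colM bse M (some Yd))) hXs le_rfl hM lamOK_Lam (by
      intro x y hx
      rw [mem_fU, cx_lt, cy_lt] at hx
      obtain ⟨h2, ⟨i, h3⟩, -⟩ := hx
      refine ⟨(lt_mem_B hpos).1 h2, ?_⟩
      unfold cpl at h3
      rw [cx_lt, cy_lt] at h3
      rw [h3]
      simp) LayF_Wl (by
      rintro x k hw ⟨p, hp, he⟩
      have h2 := wdwA_low hb hn hXs le_rfl hw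
      rw [τ_eq] at he
      have h3 := lt_inj he
      have h4 : k = Yd := by
        have h5 : p.2 = Yd := hp.1
        rw [h3] at h5
        simpa [ys] using h5
      omega) (by
      intro x k x' k' hx hx' hp hw hw' hk hk'
      have h0' : (0 : ℤ) ≤ (b.τ : ℤ) * (2 * h) - Rk (1 / 2) h := by
        have := tau_n hb hn
        omega
      rw [τ_eq, τ_eq]
      simp only [ys, if_true]
      rw [mem_fU, mem_fU, cx_lt, cy_lt, cx_lt, cy_lt, lt_mem_B hpos, lt_mem_B hpos, hxs,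
        gap_iff hb hn hx.2, gap_iff hb hn hx'.2, hp]
      have q1 : InQ b (2 * h) x k := plate_Q hb hd hn hx.2 hx.1 ⟨by omega, hk.2.le⟩
      have q2 : InQ b (2 * h) x' k' := plate_Q hb hd hn hx'.2 hx'.1 ⟨by omega, hk'.2.le⟩
      have c1 : ∃ i, cpl b (2 * h) (lt (x, k)) = some i := by
        refine ⟨pli b (2 * h) x, ?_⟩
        unfold cpl
        rw [cx_lt, cy_lt]
        exact (Pool.Agent.H28.W.chn_tile hb hn).2 ⟨hx.2, rfl, by omega, hk.2⟩
      have c2 : ∃ i, cpl b (2 * h) (lt (x', k')) = some i := by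
        refine ⟨pli b (2 * h) x', ?_⟩
        unfold cpl
        rw [cx_lt, cy_lt]
        exact (Pool.Agent.H28.W.chn_tile hb hn).2 ⟨hx'.2, rfl, by omega, hk'.2⟩
      have y1 : Yd < k := by omega
      have y2 : Yd < k' := by omega
      simp only [q1, q2, c1, c2, y1, y2, true_and, and_true]) (by
      intro k k' _ _ hk hk'
      rw [left_Wl hb hpos _ hk, left_Wl hb hpos _ hk'])
  have hqK := hM q hq
  have hqL := dgt_notLam hb hn hq hqK
  have hz : OutC (Lam b (2 * h) M) (lt '' strD (xs, Yd)) (zc (xs, Yd)) :=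
    outC_D ⟨(xs, Yd), ⟨rfl, le_rfl⟩, rfl⟩ (lt_odd _) (Or.inl rfl)
  refine (PB_diff (C := fun ω => ChgR (Lam b (2 * h) M) (lt '' strD (xs, Yd))
    (Force (FA true b (2 * h) xs 0) (uB true) (cJ b h o (fU b h xs Yd)
      (Wl b (2 * h) (colM bse M (some Yd))) ω)) (cJ b h o (fU b h xs Yd)
      (Wl b (2 * h) (colM bse M (some Yd))) ω)) ?_).trans h1
  intro ω _ hC
  have h2 := RF_of_chg hqL hz hC
  have e1 : Force (FA true b (2 * h) xs 0) (uB true) (cJ b h o (fU b h xs Yd)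
      (Wl b (2 * h) (colM bse M (some Yd))) ω) =
      Force (Fr b h xs) dn (w0 b h o xs Yd ω) ∪ Wl b (2 * h) (colM bse M (some Yd)) := by
    rw [Fr_eq hb hd hpos hXs]
    have e2 : (uB true : ℤ × ℤ → ℤ × ℤ) = dn := funext uB_true
    rw [e2]
    unfold cJ w0
    refine force_union ?_ ?_
    · intro e he he'
      have ho := odd_of_τ_image he
      rw [← Fr_eq hb hd hpos hXs, mem_Fr] at he
      rw [← lt_cc ho] at he'
      rw [← lt_cc ho, lt_mem_B hpos] at he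
      exact LayF_Wl _ _ he' he.1
    · intro e he he'
      unfold FA at he
      rw [mem_image] at he
      obtain ⟨x, hx, rfl⟩ := he
      rw [mem_Ico] at hx
      rw [← uB_true, ← τ_pred, τ_eq] at he'
      simp only [ys, if_true] at he'
      refine LayF_Wl _ _ he' (plate_Q hb hd hn hx.2 (hXs.trans hx.1) ?_)
      rw [(botA_col hb hn (hXs.trans hx.1) hx.2).1]
      have h3 := tau_n hb hn
      have h4 := (botA_col hb hn (hXs.trans hx.1) hx.2)
      rw [h4.1] at h4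
      constructor <;> linarith [h4.2.1]
  rw [e1] at h2
  exact h2

end Pool.Agent.H28.W
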