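import Mathlib
import Pool.Agent.H28.W.JRowU
import Pool.Agent.H80.W.XPSt

/-! # C6, JRow: the forced rows of XP

`row_A` : first row of the room along the upper bank of the slit, left of `a0`. `row_B` : last row below the
ceiling. `wall_Wl` : colours of the layer in the windows of the ceiling / floor. -/

set_option autoImplicit false
open Finset

namespace Pool.Agent.H28.W

open Pool.Agent.H6.W Pool.Agent.H21.W Pool.Agent.H61.W Pool.Agent.H71.W Pool.Agent.H13.W
open Pool.Agent.H33.Q1 Pool.Agent.H50.W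
open Pool.Agent.H92.W (τ Tch Wdw Wall Bank uB nB τ_inj τ_pred OutC)
open Pool.Agent.H58.W (PB PB_mono up_subset)
open Pool.Agent.H35.W (Force mem_Force)
open Pool.Agent.H19.W (cx cy lt_cc cx_lt cy_lt)

variable {b : JBox} {δ σ : ℝ} {h : ℕ} {n x y k R xs xe : ℤ} {s o : Bool} {M : Finset (Bool × ℕ)}

/-- the flipped half plates -/
lemma PlF_flp {x1 : ℤ} : PlF b h (flp b h s x1) := by
  classical
  intro x y hx
  unfold flp at hx
  rw [mem_filter, tt_lt] at hx
  exact hx.2.1

lemma PlF_empty : PlF b h ∅ := fun _ _ h => absurd h (notMem_empty _)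

/-- a touching layer tile in the windows of the ceiling / floor shows the colour of the layer -/
lemma wall_Wl (hb : b.Ok δ σ) (hh : 0 < h) (hR : R + 2 ≤ 2 * h) (hxs : -((b.X : ℤ) * (2 * h)) ≤ xs)
    (hxe : xe ≤ (b.X : ℤ) * (2 * h)) (cl : Cl) (hw : Wdw xs xe R (botB b (2 * h)) x k)
    (hQ : ¬ InQ b (2 * h) x k) (ht : Tch (botB b (2 * h)) x k) :
    τ s x k ∈ Wl b (2 * h) cl ↔ lcol b (2 * h) cl x (ys s k) = true := by
  have hn := n_pos hh
  have hX := X1 hb
  have hH := H1 hb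
  have hXn : 0 < (b.X : ℤ) * (2 * h) := by positivity
  have hHn : 2 * (h : ℤ) ≤ (b.H : ℤ) * (2 * h) := by nlinarith
  have hKn : (0 : ℤ) ≤ (b.K : ℤ) * (2 * h) := by positivity
  have e1 : ((b.H : ℤ) + b.K) * (2 * h) = (b.H : ℤ) * (2 * h) + b.K * (2 * h) := by ring
  have hneg := wdwB_high hb hn hxs hxe hw
  obtain ⟨x', h1, h2⟩ := ht
  rw [abs_le] at h1
  have h3 : -((b.X : ℤ) * (2 * h)) ≤ x' ∧ x' < (b.X : ℤ) * (2 * h) := by
    by_contra h4
    unfold botB at h2
    rw [if_neg h4] at h2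
    omega
  rw [(botB_col hb hn h3.1 h3.2).1] at h2
  have hc : (ci b (2 * h) x' : ℤ) ≤ b.K := by exact_mod_cast ci_le
  have h5 : ((b.H : ℤ) + ci b (2 * h) x') * (2 * h) ≤ ((b.H : ℤ) + b.K) * (2 * h) :=
    mul_le_mul_of_nonneg_right (by omega) hn.le
  have h6 : ¬ InQ b (2 * h) x (ys s k) := fun g => hQ ((InQ_ys hb hn).1 g)
  have h7 : -(((b.H : ℤ) + b.K) * (2 * h)) - 1 ≤ k := by omega
  have h8 : k < 0 := by omega
  rw [τ_eq]
  refine lt_mem_Wl h6 ⟨by omega, by omega⟩ ?_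
  unfold ys
  cases s
  · simp only [Bool.false_eq_true, if_false]
    constructor <;> omega
  · simp only [if_true]
    constructor <;> omega

/-- **XP: the forced row along the upper bank, left of `a0`.** -/
theorem row_A (hb : b.Ok δ σ) (hd : δ ≤ 1) (hσ : σ ≤ 1) {κ : ℝ} (hκ : 0 < κ) {η : ℝ} (hη : 0 < η) :
    ∃ h0 : ℕ, ∀ h : ℕ, h0 ≤ h → ∀ (M : Finset (Bool × ℕ)) (bse o : Bool) (a0 : ℤ) (v : ℤ × ℤ)
    (q : Bool × ℕ), q ∈ M → (∀ c ∈ M, c.2 < b.K) → -((b.X : ℤ) * (2 * h)) ≤ a0 → a0 ≤ 0 →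
    (a0 : ℝ) + κ * h ≤ v.1 →
    b.PJ h (fun ω => ¬ (RF b (2 * h) (SG (Lam b (2 * h) M) (lt '' strD v)
      (cfg b h o ω ∪ Wl b (2 * h) (colM bse M (some v.2)))) (zc v) q ↔
    RF b (2 * h) (SG (Lam b (2 * h) M) (lt '' strD v) (Force (Pool.Agent.H80.W.FA b h a0) dn
      (cfg b h o ω ∪ Wl b (2 * h) (colM bse M (some v.2))))) (zc v) q)) ≤ η := by
  classical
  have hκ' : 0 < min κ (1 / 2) := lt_min hκ (by norm_num)
  obtain ⟨h0, hrow⟩ := row_slit hb hd hσ hκ' (min_le_right _ _) hη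
  refine ⟨max h0 2, fun h hh M bse o a0 v q hq hM hXs ha0 hv => ?_⟩
  have hh1 : h0 ≤ h := (le_max_left _ _).trans hh
  have hh2 : 2 ≤ h := (le_max_right _ _).trans hh
  have hpos : 0 < h := by omega
  have hn := n_pos hpos
  have hMp : (0 : ℤ) < b.M := by exact_mod_cast hb.M0
  have hRv : a0 + Rk (min κ (1 / 2)) h ≤ v.1 := by
    have h1 : (Rk (min κ (1 / 2)) h : ℝ) ≤ min κ (1 / 2) * h := Int.floor_le _
    have h2 : min κ (1 / 2) * (h : ℝ) ≤ κ * h :=
      mul_le_mul_of_nonneg_right (min_le_left _ _) (by positivity)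
    have h3 : ((a0 + Rk (min κ (1 / 2)) h : ℤ) : ℝ) ≤ (v.1 : ℤ) := by
      push_cast
      linarith
    exact_mod_cast h3
  have h1 := hrow h hh1 true o (-((b.X : ℤ) * (2 * h))) a0 M (Lam b (2 * h) M) (lt '' strD v) ∅
    (Wl b (2 * h) (colM bse M (some v.2))) le_rfl ha0 hM lamOK_Lam PlF_empty LayF_Wl (by
      rintro x k hw ⟨p, hp, he⟩
      have h2 := wdw_x hw
      rw [τ_eq] at he
      have h3 := lt_inj he
      have h4 : v.1 ≤ p.1 := hp.2
      rw [h3] at h4
      simp only at h4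
      omega) (by
      intro x k x' k' _ _ _ _ _ _ _
      simp) (by
      intro k k' _ _ hk hk'
      rw [left_Wl hb hpos _ hk, left_Wl hb hpos _ hk'])
  have hqK := hM q hq
  have hqL := dgt_notLam hb hn hq hqK
  have hz : OutC (Lam b (2 * h) M) (lt '' strD v) (zc v) :=
    outC_D ⟨v, ⟨rfl, le_rfl⟩, rfl⟩ (lt_odd _) (Or.inl rfl)
  refine le_trans (PB_mono (B := fun ω => ChgR (Lam b (2 * h) M) (lt '' strD v)
    (Force (FA true b (2 * h) (-((b.X : ℤ) * (2 * h))) a0) (uB true) (cJ b h o ∅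
      (Wl b (2 * h) (colM bse M (some v.2))) ω)) (cJ b h o ∅
      (Wl b (2 * h) (colM bse M (some v.2))) ω)) ?_) h1
  intro ω _ hA
  by_contra hC
  refine hA ?_
  have h2 := RF_of_chg hqL hz hC
  have e1 : cJ b h o ∅ (Wl b (2 * h) (colM bse M (some v.2))) ω =
      cfg b h o ω ∪ Wl b (2 * h) (colM bse M (some v.2)) := by
    unfold cJ
    rw [← bot_eq_empty, symmDiff_bot]
  have e2 : (uB true : ℤ × ℤ → ℤ × ℤ) = dn := funext uB_true
  have e3 : FA true b (2 * h) (-((b.X : ℤ) * (2 * h))) a0 = Pool.Agent.H80.W.FA b h a0 := by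
    ext e
    by_cases ho : (e.1 + e.2) % 2 = 1
    · rw [← lt_cc ho]
      generalize cx e = x
      generalize cy e = y
      have e4 : lt (x, y) = τ true x y := by rw [τ_eq]; simp [ys]
      rw [e4, mem_FA, ← e4]
      unfold Pool.Agent.H80.W.FA
      rw [mem_filter, lt_mem_B hpos]
      constructor
      · rintro ⟨⟨g1, g2⟩, g3⟩
        have g4 : x < 0 := by omega
        rw [(botA_col hb hn g1 g4).1] at g3
        refine ⟨plate_Q hb hd hn g4 g1 ⟨?_, g3.le⟩, ?_, ?_⟩
        · rw [g3]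
          have : 0 ≤ ((b.τ : ℤ) + pli b (2 * h) x) * (2 * h) := by positivity
          linarith
        · rcases hc : cpl b (2 * h) (lt (x, y)) with _ | i
          · rfl
          · exfalso
            unfold cpl at hc
            rw [cx_lt, cy_lt, Pool.Agent.H28.W.chn_tile hb hn] at hc
            obtain ⟨k1, k2, k3, k4⟩ := hc
            rw [g3, k2] at k4
            exact lt_irrefl _ k4
        · unfold Pool.Agent.H80.W.lpl Pool.Agent.H80.W.lch
          rw [cx_lt, cy_lt, if_pos ⟨g2, g4, g3⟩]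
          simp
      · rintro ⟨g1, g2, g3⟩
        have g4 := ((InQ_tile hb hn).1 g1).1
        unfold Pool.Agent.H80.W.lpl Pool.Agent.H80.W.lch at g3
        rw [cx_lt, cy_lt] at g3
        unfold cpl at g2
        rw [cx_lt, cy_lt] at g2
        split_ifs at g3 with g5
        · refine ⟨⟨g4.1, g5.1⟩, ?_⟩
          rw [(botA_col hb hn g4.1 g5.2.1).1]
          exact g5.2.2
        · exact absurd g2 g3
    · constructor
      · intro h1
        exact absurd (odd_of_τ_image h1) ho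
      · intro h1
        unfold Pool.Agent.H80.W.FA at h1
        rw [mem_filter, mem_B' hpos] at h1
        exact absurd h1.1.1 ho
  rw [e1, e2, e3] at h2
  exact h2.symm

/-- **XP: the forced row below the ceiling.** -/
theorem row_B (hb : b.Ok δ σ) (hd : δ ≤ 1) (hσ : σ ≤ 1) {η : ℝ} (hη : 0 < η) :
    ∃ h0 : ℕ, ∀ h : ℕ, h0 ≤ h → ∀ (M : Finset (Bool × ℕ)) (bse o : Bool) (x1 : ℤ)
    (q : Bool × ℕ), q ∈ M → (∀ c ∈ M, c.2 < b.K) →
    b.PJ h (fun ω => ¬ (RF b (2 * h) (SG (Lam b (2 * h) M) (lt '' slD true x1)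
      (symmDiff (cfg b h o ω) (flp b h true x1) ∪ Wl b (2 * h) (colM bse M none))) (mc true x1) q ↔
    RF b (2 * h) (SG (Lam b (2 * h) M) (lt '' slD true x1) (Force (Pool.Agent.H80.W.FB b h) up
      (symmDiff (cfg b h o ω) (flp b h true x1) ∪ Wl b (2 * h) (colM bse M none)))) (mc true x1) q))
      ≤ η := by
  classical
  obtain ⟨h0, hrow⟩ := row_wall hb hd hσ (κ := 1 / 2) (by norm_num) le_rfl hη
  refine ⟨max h0 2, fun h hh M bse o x1 q hq hM => ?_⟩
  have hh1 : h0 ≤ h := (le_max_left _ _).trans hh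
  have hh2 : 2 ≤ h := (le_max_right _ _).trans hh
  have hpos : 0 < h := by omega
  have hn := n_pos hpos
  have hR := Rk_le (κ := 1 / 2) le_rfl (h := h)
  have hX := X1 hb
  have hH := H1 hb
  have hXn : 0 < (b.X : ℤ) * (2 * h) := by positivity
  have hHn : 2 * (h : ℤ) ≤ (b.H : ℤ) * (2 * h) := by nlinarith
  have h1 := hrow h hh1 false o (-((b.X : ℤ) * (2 * h))) ((b.X : ℤ) * (2 * h)) M (Lam b (2 * h) M)
    (lt '' slD true x1) (flp b h true x1) (Wl b (2 * h) (colM bse M none)) bse none le_rfl le_rfl hM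
    lamOK_Lam PlF_flp LayF_Wl (by
      rintro x k hw ⟨p, hp, he⟩
      have h2 := wdwB_high hb hn le_rfl le_rfl hw
      rw [τ_eq] at he
      have h3 := lt_inj he
      have h4 : p.2 = Yr true := hp.1
      rw [h3] at h4
      simp only [ys, Yr, Bool.false_eq_true, if_false, if_true] at h4
      omega) (fun x k hw hQ ht => wall_Wl hb hpos (by omega) le_rfl le_rfl _ hw hQ ht) (by simp)
  have hqK := hM q hq
  have hqL := dgt_notLam hb hn hq hqK
  have hz : OutC (Lam b (2 * h) M) (lt '' slD true x1) (mc true x1) := by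
    refine outC_D (e := lt (x1 - 1, Yr true)) ⟨(x1 - 1, Yr true), ⟨rfl, by simp⟩, rfl⟩ (lt_odd _)
      (Or.inr (Or.inl ?_))
    unfold mc eE eW lt
    simp only [Prod.mk.injEq]
    constructor <;> ring
  refine le_trans (PB_mono (B := fun ω => ChgR (Lam b (2 * h) M) (lt '' slD true x1)
    (Force (FBw false b (2 * h) (-((b.X : ℤ) * (2 * h))) ((b.X : ℤ) * (2 * h))) (uB false)
      (cJ b h o (flp b h true x1) (Wl b (2 * h) (colM bse M none)) ω)) (cJ b h o (flp b h true x1)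
      (Wl b (2 * h) (colM bse M none)) ω)) ?_) h1
  intro ω _ hA
  by_contra hC
  refine hA ?_
  have h2 := RF_of_chg hqL hz hC
  have e2 : (uB false : ℤ × ℤ → ℤ × ℤ) = up := funext uB_false
  have e3 : FBw false b (2 * h) (-((b.X : ℤ) * (2 * h))) ((b.X : ℤ) * (2 * h)) =
      Pool.Agent.H80.W.FB b h := by
    ext e
    by_cases ho : (e.1 + e.2) % 2 = 1
    · rw [← lt_cc ho]
      generalize cx e = x
      generalize hy : cy e = y
      obtain ⟨k, rfl⟩ := exists_ys false y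
      rw [← τ_eq, mem_FBw, τ_eq]
      unfold Pool.Agent.H80.W.FB
      rw [mem_filter, lt_mem_B hpos]
      unfold Pool.Agent.H80.W.CrR
      rw [cx_lt, cy_lt]
      dsimp only
      have e4 : ys false k + 1 = ys false (k - 1) := by unfold ys; simp; ring
      rw [e4, InQ_ys hb hn, InQ_ys hb hn]
      have e5 : 0 ≤ ys false k ↔ k < 0 := by unfold ys; simp; omega
      rw [e5]
      constructor
      · rintro ⟨⟨g1, g2⟩, g3⟩
        obtain ⟨g4, g5⟩ := botB_col hb hn g1 g2
        have g6 : (0 : ℤ) ≤ ci b (2 * h) x := by positivity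
        have g7 : 0 < ((b.H : ℤ) + ci b (2 * h) x) * (2 * h) := by nlinarith
        rw [g4] at g3
        rw [InQ_tile hb hn, InQ_tile hb hn]
        refine ⟨⟨⟨g1, g2⟩, by omega, by omega⟩, by omega, ?_⟩
        rintro ⟨-, g8, -⟩
        omega
      · rintro ⟨g1, g2, g3⟩
        rw [InQ_tile hb hn] at g1 g3
        obtain ⟨g4, g5⟩ := botB_col hb hn g1.1.1 g1.1.2
        refine ⟨g1.1, ?_⟩
        rw [g4]
        by_contra g6
        exact g3 ⟨g1.1, by omega, by omega⟩
    · constructor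
      · intro h1
        exact absurd (odd_of_τ_image h1) ho
      · intro h1
        unfold Pool.Agent.H80.W.FB at h1
        rw [mem_filter, mem_B' hpos] at h1
        exact absurd h1.1.1 ho
  rw [e2, e3] at h2
  exact h2.symm

end Pool.Agent.H28.W
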