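import Mathlib
import Pool.Agent.H28.W.JRowX

/-! # C6, JRow: 87's forced ceiling / floor

`row_force` : connections between ends do not change when the row right of the corner `c` is forced.
`row_force_RF` : the same for the events `RF` in the worlds `GG`. `cntY_of_chg` : the number of passages. -/

set_option autoImplicit false
open Finset

namespace Pool.Agent.H28.W

open Pool.Agent.H6.W Pool.Agent.H21.W Pool.Agent.H61.W Pool.Agent.H71.W Pool.Agent.H13.W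
open Pool.Agent.H33.Q1 Pool.Agent.H50.W
open Pool.Agent.H92.W (τ Tch Wdw Wall Bank uB nB τ_inj τ_pred OutC)
open Pool.Agent.H58.W (PB PB_mono up_subset)
open Pool.Agent.H35.W (Force mem_Force)
open Pool.Agent.H73.W (ph)

variable {b : JBox} {δ σ : ℝ} {h : ℕ} {n x y k R xs xe : ℤ} {s o : Bool} {M : Finset (Bool × ℕ)}

/-- the configuration of a junction world is contained in the box -/
lemma cfg_sub (hb : b.Ok δ σ) (hd : δ ≤ 1) (hσ : σ ≤ 1) (hh : 0 < h) {Fp ω : Finset (ℤ × ℤ)}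
    (hω : ω ⊆ b.B h) (hF : Fp ⊆ b.B h) : symmDiff (cfg b h o ω) Fp ⊆ b.B h := by
  have hP := Pl_sub hb hd hh (m_le hb hσ hd)
  have h1 : cfg b h o ω ⊆ b.B h := by
    unfold cfg
    cases o
    · simp only [Bool.false_eq_true, if_false]
      exact sdiff_subset.trans hω
    · simp only [if_true]
      exact union_subset hω hP
  intro e he
  rw [mem_symmDiff] at he
  rcases he with he | he
  · exact h1 he.1
  · exact hF he.1

/-- **87's forced ceiling / floor.** -/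
theorem row_force (hb : b.Ok δ σ) (hd : δ ≤ 1) (hσ : σ ≤ 1) {η : ℝ} (hη : 0 < η) :
    ∃ h0 : ℕ, ∀ h : ℕ, h0 ≤ h → ∀ (c : Bool × ℕ) (M : Finset (Bool × ℕ)) (Λ D : Set (ℤ × ℤ))
    (Fp : Finset (ℤ × ℤ)) (base o : Bool), c.2 < b.K → (∀ q ∈ M, q.2 < b.K) → LamOK b (2 * h) M Λ →
    (∀ p ∈ D, -((b.H : ℤ) * (2 * h)) + h ≤ p.2 ∧ p.2 + h ≤ (b.H : ℤ) * (2 * h)) →
    Fp ⊆ b.B h → PlF b h Fp →
    b.PJ h (fun ω => ChgR Λ (lt '' D)
      (Pool.Agent.H87.W.force b h c (colM base M none) (symmDiff (cfg b h o ω) Fp) ∪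
        Wl b (2 * h) (colM base M none))
      (symmDiff (cfg b h o ω) Fp ∪ Wl b (2 * h) (colM base M none))) ≤ η := by
  classical
  obtain ⟨h0, hrow⟩ := row_wall hb hd hσ (κ := 1 / 2) (by norm_num) le_rfl hη
  refine ⟨max h0 3, fun h hh c M Λ D Fp base o hc hM hΛ hD hFB hF => ?_⟩
  have hh1 : h0 ≤ h := (le_max_left _ _).trans hh
  have hh2 : 3 ≤ h := (le_max_right _ _).trans hh
  have hpos : 0 < h := by omega
  have hn := n_pos hpos
  have hR := Rk_le (κ := 1 / 2) le_rfl (h := h)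
  have hX := X1 hb
  have hst := (st_bd hb hn hc).1
  have hXs : -((b.X : ℤ) * (2 * h)) ≤ b.st c.2 * (2 * h) := by linarith
  have h1 := hrow h hh1 (!c.1) o (b.st c.2 * (2 * h)) ((b.X : ℤ) * (2 * h)) M Λ
    (lt '' D) Fp (Wl b (2 * h) (colM base M none)) base none hXs le_rfl hM hΛ hF LayF_Wl (by
      rintro x k hw ⟨p, hp, he⟩
      have h2 := wdwB_high hb hn hXs le_rfl hw
      rw [τ_eq] at he
      have h3 := lt_inj he
      have h4 := hD p hp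
      rw [h3] at h4
      unfold ys at h4
      split_ifs at h4 <;> simp only at h4 <;> omega)
    (fun x k hw hQ ht => wall_Wl hb hpos (by omega) hXs le_rfl _ hw hQ ht) (by simp)
  refine le_trans (PB_mono (B := fun ω => ChgR Λ (lt '' D)
    (Force (FBw (!c.1) b (2 * h) (b.st c.2 * (2 * h)) ((b.X : ℤ) * (2 * h))) (uB (!c.1))
      (cJ b h o Fp (Wl b (2 * h) (colM base M none)) ω)) (cJ b h o Fp
      (Wl b (2 * h) (colM base M none)) ω)) ?_) h1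
  intro ω hω hA
  have e1 := force_eq (s := !c.1) (cl := colM base M none) hb hpos hc
    (cfg_sub (o := o) hb hd hσ hpos hω hFB)
  have e2 : ((!(!c.1), c.2) : Bool × ℕ) = c := by simp
  rw [e2] at e1
  rw [e1] at hA
  exact hA

/-- **the same for the far ends in the worlds `GG`** -/
theorem row_force_RF (hb : b.Ok δ σ) (hd : δ ≤ 1) (hσ : σ ≤ 1) {η : ℝ} (hη : 0 < η) :
    ∃ h0 : ℕ, ∀ h : ℕ, h0 ≤ h → ∀ (c : Bool × ℕ) (M : Finset (Bool × ℕ)) (D : Set (ℤ × ℤ))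
    (Fp : Finset (ℤ × ℤ)) (base o : Bool), c.2 < b.K → (∀ q ∈ M, q.2 < b.K) →
    (∀ p ∈ D, -((b.H : ℤ) * (2 * h)) + h ≤ p.2 ∧ p.2 + h ≤ (b.H : ℤ) * (2 * h)) →
    Fp ⊆ b.B h → PlF b h Fp → ∀ q ∈ M, ∀ c1, OutC (Lam b (2 * h) M) (lt '' D) c1 →
    |b.PJ h (fun ω => RF b (2 * h) (GG b (2 * h) M (colM base M none) D
        (Pool.Agent.H87.W.force b h c (colM base M none) (symmDiff (cfg b h o ω) Fp))) c1 q) -
      b.PJ h (fun ω => RF b (2 * h) (GG b (2 * h) M (colM base M none) D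
        (symmDiff (cfg b h o ω) Fp)) c1 q)| ≤ η := by
  obtain ⟨h0, H⟩ := row_force hb hd hσ hη
  refine ⟨max h0 1, fun h hh c M D Fp base o hc hM hD hFB hF q hq c1 h1 => ?_⟩
  have hpos : 0 < h := (le_max_right _ _).trans hh
  have h2 := H h ((le_max_left _ _).trans hh) c M _ D Fp base o hc hM lamOK_Lam hD hFB hF
  refine (PB_diff ?_).trans h2
  intro ω _ hC
  exact RF_of_chg (dgt_notLam hb (n_pos hpos) hq (hM q hq)) h1 hC

/-- the deleted row inside the slit is far from the ceiling and the floor -/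
lemma slD_far (hb : b.Ok δ σ) (hh : 2 ≤ h) {x1 : ℤ} : ∀ p ∈ slD s x1,
    -((b.H : ℤ) * (2 * h)) + h ≤ p.2 ∧ p.2 + h ≤ (b.H : ℤ) * (2 * h) := by
  rintro p ⟨hp, -⟩
  have hH := H1 hb
  have hHn : 2 * (h : ℤ) ≤ (b.H : ℤ) * (2 * h) := by nlinarith
  rw [hp]
  unfold Yr
  split_ifs <;> constructor <;> omega

lemma flp_sub {x1 : ℤ} : flp b h s x1 ⊆ b.B h := by
  classical
  unfold flp
  exact filter_subset _ _

/-- the end at a mark on a bank of `P` -/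
lemma outC_mc {Λ : Set (ℤ × ℤ)} {x1 : ℤ} {D : Set (ℤ × ℤ)} (hD : slD s x1 ⊆ D) :
    OutC Λ (lt '' D) (mc s x1) := by
  refine outC_D (e := lt (x1 - 1, Yr s)) ⟨(x1 - 1, Yr s), hD ⟨rfl, by simp⟩, rfl⟩ (lt_odd _)
    (Or.inr (Or.inl ?_))
  unfold mc eE eW lt
  simp only [Prod.mk.injEq]
  constructor <;> ring

/-- the moving end -/
lemma outC_zc {Λ : Set (ℤ × ℤ)} {v : ℤ × ℤ} {D : Set (ℤ × ℤ)} (hD : strD v ⊆ D) :
    OutC Λ (lt '' D) (zc v) :=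
  outC_D ⟨v, hD ⟨rfl, le_rfl⟩, rfl⟩ (lt_odd _) (Or.inl rfl)

/-- connections to the mark on a bank of `P` -/
lemma mc_of_chg {Λ D : Set (ℤ × ℤ)} {w w' : Finset (ℤ × ℤ)} {c d : ℤ × ℤ}
    (hc : OutC Λ D c) (hd : OutC Λ D d) (h : ¬ ChgR Λ D w w') :
    (SG Λ D w).Reachable c d ↔ (SG Λ D w').Reachable c d := by
  unfold ChgR at h
  rw [not_not] at h
  exact h c d hc hd

/-- **the number of passages** behind the mark on `P` does not change -/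
lemma cntY_of_chg {Λ D : Set (ℤ × ℤ)} {x1 : ℤ} {c3 c4 : Bool × ℕ} {w w' : Finset (ℤ × ℤ)}
    (hD : slD s x1 ⊆ D) (h3 : lt (dgt b (2 * h) c3) ∉ Λ) (h4 : lt (dgt b (2 * h) c4) ∉ Λ)
    (hC : ¬ ChgR Λ (lt '' D) w w') :
    cntY b h s x1 c3 c4 (SG Λ (lt '' D) w) = cntY b h s x1 c3 c4 (SG Λ (lt '' D) w') := by
  unfold cntY
  congr 1
  ext x
  simp only [Set.mem_ofPred_eq]
  refine and_congr_right fun hx => ?_
  refine RF_of_chg ?_ ?_ hC
  · unfold fst2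
    split_ifs
    · exact h3
    · exact h4
  · exact outC_D ⟨(x, Yr s), hD ⟨rfl, hx⟩, rfl⟩ (lt_odd _) (Or.inr (Or.inr (Or.inl rfl)))

/-- **`V1` does not change** if the connections between ends change with probability `≤ ε` -/
theorem V1_of_chg {D : Set (ℤ × ℤ)} {x1 : ℤ} {c3 c4 : Bool × ℕ}
    {W W' : Finset (ℤ × ℤ) → Finset (ℤ × ℤ)} {Λ : Set (ℤ × ℤ)} {c : ℤ × ℤ} {ε : ℝ}
    (hD : slD s x1 ⊆ D) (h3 : lt (dgt b (2 * h) c3) ∉ Λ) (h4 : lt (dgt b (2 * h) c4) ∉ Λ)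
    (hc : OutC Λ (lt '' D) c)
    (hP : b.PJ h (fun ω => ChgR Λ (lt '' D) (W ω) (W' ω)) ≤ ε) :
    ‖V1 b h s x1 c3 c4 (fun ω => SG Λ (lt '' D) (W ω)) c -
      V1 b h s x1 c3 c4 (fun ω => SG Λ (lt '' D) (W' ω)) c‖ ≤ 3 * ε := by
  have hf : lt (dgt b (2 * h) (fst2 b c3 c4)) ∉ Λ := by
    unfold fst2
    split_ifs
    · exact h3
    · exact h4
  have hm := outC_mc (Λ := Λ) hD
  have d1 : |b.PJ h (fun ω => RF b (2 * h) (SG Λ (lt '' D) (W ω)) c (fst2 b c3 c4)) -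
      b.PJ h (fun ω => RF b (2 * h) (SG Λ (lt '' D) (W' ω)) c (fst2 b c3 c4))| ≤ ε :=
    (PB_diff fun ω _ hC => RF_of_chg hf hc hC).trans hP
  have d2 : |b.PJ h (fun ω => (SG Λ (lt '' D) (W ω)).Reachable c (mc s x1) ∧
        Even (cntY b h s x1 c3 c4 (SG Λ (lt '' D) (W ω)))) -
      b.PJ h (fun ω => (SG Λ (lt '' D) (W' ω)).Reachable c (mc s x1) ∧
        Even (cntY b h s x1 c3 c4 (SG Λ (lt '' D) (W' ω))))| ≤ ε :=
    (PB_diff fun ω _ hC => by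
      rw [mc_of_chg hc hm hC, cntY_of_chg hD h3 h4 hC]).trans hP
  have d3 : |b.PJ h (fun ω => (SG Λ (lt '' D) (W ω)).Reachable c (mc s x1) ∧
        ¬ Even (cntY b h s x1 c3 c4 (SG Λ (lt '' D) (W ω)))) -
      b.PJ h (fun ω => (SG Λ (lt '' D) (W' ω)).Reachable c (mc s x1) ∧
        ¬ Even (cntY b h s x1 c3 c4 (SG Λ (lt '' D) (W' ω))))| ≤ ε :=
    (PB_diff fun ω _ hC => by
      rw [mc_of_chg hc hm hC, cntY_of_chg hD h3 h4 hC]).trans hP
  have hph : ‖ph‖ = 1 := Pool.Agent.H73.W.ph_norm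
  unfold V1
  generalize b.PJ h (fun ω => RF b (2 * h) (SG Λ (lt '' D) (W ω)) c (fst2 b c3 c4)) = a1 at *
  generalize b.PJ h (fun ω => RF b (2 * h) (SG Λ (lt '' D) (W' ω)) c (fst2 b c3 c4)) = a2 at *
  generalize b.PJ h (fun ω => (SG Λ (lt '' D) (W ω)).Reachable c (mc s x1) ∧
        Even (cntY b h s x1 c3 c4 (SG Λ (lt '' D) (W ω)))) = a3 at *
  generalize b.PJ h (fun ω => (SG Λ (lt '' D) (W' ω)).Reachable c (mc s x1) ∧
        Even (cntY b h s x1 c3 c4 (SG Λ (lt '' D) (W' ω)))) = a4 at *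
  generalize b.PJ h (fun ω => (SG Λ (lt '' D) (W ω)).Reachable c (mc s x1) ∧
        ¬ Even (cntY b h s x1 c3 c4 (SG Λ (lt '' D) (W ω)))) = a5 at *
  generalize b.PJ h (fun ω => (SG Λ (lt '' D) (W' ω)).Reachable c (mc s x1) ∧
        ¬ Even (cntY b h s x1 c3 c4 (SG Λ (lt '' D) (W' ω)))) = a6 at *
  have e : ((a1 : ℂ) + ph * (a3 : ℂ) + ph⁻¹ * (a5 : ℂ)) - ((a2 : ℂ) + ph * (a4 : ℂ) + ph⁻¹ * (a6 : ℂ)) =
      ((a1 - a2 : ℝ) : ℂ) + ph * ((a3 - a4 : ℝ) : ℂ) + ph⁻¹ * ((a5 - a6 : ℝ) : ℂ) := by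
    push_cast
    ring
  rw [e]
  refine (norm_add₃_le).trans ?_
  rw [norm_mul, norm_mul, norm_inv, hph, Complex.norm_real, Complex.norm_real, Complex.norm_real,
    Real.norm_eq_abs, Real.norm_eq_abs, Real.norm_eq_abs]
  linarith

/-- **`V0` does not change** if the connections between ends change with probability `≤ ε` -/
theorem V0_of_chg {D : Set (ℤ × ℤ)} {c2 c3 c4 : Bool × ℕ}
    {W W' : Finset (ℤ × ℤ) → Finset (ℤ × ℤ)} {Λ : Set (ℤ × ℤ)} {c : ℤ × ℤ} {ε : ℝ}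
    (h2 : lt (dgt b (2 * h) c2) ∉ Λ) (h3 : lt (dgt b (2 * h) c3) ∉ Λ)
    (h4 : lt (dgt b (2 * h) c4) ∉ Λ) (hc : OutC Λ D c)
    (hP : b.PJ h (fun ω => ChgR Λ D (W ω) (W' ω)) ≤ ε) :
    ‖V0 b h c2 c3 c4 (fun ω => SG Λ D (W ω)) c - V0 b h c2 c3 c4 (fun ω => SG Λ D (W' ω)) c‖ ≤
      2 * ε := by
  have hf : lt (dgt b (2 * h) (snd2 b c3 c4)) ∉ Λ := by
    unfold snd2
    split_ifs
    · exact h4
    · exact h3
  have d1 : |b.PJ h (fun ω => RF b (2 * h) (SG Λ D (W ω)) c (snd2 b c3 c4)) -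
      b.PJ h (fun ω => RF b (2 * h) (SG Λ D (W' ω)) c (snd2 b c3 c4))| ≤ ε :=
    (PB_diff fun ω _ hC => RF_of_chg hf hc hC).trans hP
  have d2 : |b.PJ h (fun ω => RF b (2 * h) (SG Λ D (W ω)) c c2) -
      b.PJ h (fun ω => RF b (2 * h) (SG Λ D (W' ω)) c c2)| ≤ ε :=
    (PB_diff fun ω _ hC => RF_of_chg h2 hc hC).trans hP
  have hK : ‖K2 b c2 c3 c4‖ = 1 := by
    unfold K2
    split_ifs
    · rw [norm_inv, Pool.Agent.H73.W.ph_norm, inv_one]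
    · exact Pool.Agent.H73.W.ph_norm
  unfold V0
  generalize b.PJ h (fun ω => RF b (2 * h) (SG Λ D (W ω)) c (snd2 b c3 c4)) = a1 at *
  generalize b.PJ h (fun ω => RF b (2 * h) (SG Λ D (W' ω)) c (snd2 b c3 c4)) = a2 at *
  generalize b.PJ h (fun ω => RF b (2 * h) (SG Λ D (W ω)) c c2) = a3 at *
  generalize b.PJ h (fun ω => RF b (2 * h) (SG Λ D (W' ω)) c c2) = a4 at *
  have e : ((a1 : ℂ) + K2 b c2 c3 c4 * (a3 : ℂ)) - ((a2 : ℂ) + K2 b c2 c3 c4 * (a4 : ℂ)) =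
      ((a1 - a2 : ℝ) : ℂ) + K2 b c2 c3 c4 * ((a3 - a4 : ℝ) : ℂ) := by
    push_cast
    ring
  rw [e]
  refine (norm_add_le _ _).trans ?_
  rw [norm_mul, hK, Complex.norm_real, Complex.norm_real, Real.norm_eq_abs, Real.norm_eq_abs]
  linarith

/-- **50's row (B)** -/
theorem row_X (hb : b.Ok δ σ) (hd : δ ≤ 1) (hσ : σ ≤ 1) {ε : ℝ} (hε : 0 < ε) :
    ∃ h0 : ℕ, ∀ h : ℕ, h0 ≤ h → ∀ (w o : Bool) (i : ℕ) (M : Finset (Bool × ℕ)) (q0 q : Bool × ℕ)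
    (z : ℤ × ℤ), i < b.K → (∀ c ∈ M, c.2 < b.K) → q0 ∈ M → q ∈ M →
    (z = f1 b (2 * h) q0 ∨ z = f2 b (2 * h) q0) →
    |b.PJ h (fun ω => RF b (2 * h) (GG b (2 * h) M (colM (bs w) M none) ∅
        (Pool.Agent.H87.W.force b h (false, i) (colM (bs w) M none) (cfg b h o ω))) z q) -
      b.PJ h (fun ω => RF b (2 * h) (GG b (2 * h) M (colM (bs w) M none) ∅ (cfg b h o ω)) z q)| ≤
      ε := by
  obtain ⟨h0, H⟩ := row_force_RF hb hd hσ hε
  refine ⟨max h0 1, fun h hh w o i M q0 q z hi hM hq0 hq hz => ?_⟩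
  have hpos : 0 < h := (le_max_right _ _).trans hh
  have h1 := H h ((le_max_left _ _).trans hh) (false, i) M ∅ ∅ (bs w) o hi hM (by simp)
    (empty_subset _) PlF_empty q hq z (by
      obtain ⟨k1, k2⟩ := outC_f (b := b) (D := lt '' (∅ : Set (ℤ × ℤ)))
        (dgt_notLam (M := M) hb (n_pos hpos) hq0 (hM q0 hq0))
      rcases hz with rfl | rfl
      · exact k1
      · exact k2)
  have e : ∀ ω, symmDiff (cfg b h o ω) (∅ : Finset (ℤ × ℤ)) = cfg b h o ω := by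
    intro ω
    rw [← bot_eq_empty, symmDiff_bot]
  simp only [e] at h1
  exact h1

end Pool.Agent.H28.W
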